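import Pool.Agent.H37.VSASM.Cform

open Finset Polynomial

namespace Pool.Agent.H37.VSASM

variable {K : Type*} [Field K]

/-- the exponents `2n, 2n, 2n-2, 2n-2, ..., 2, 2` -/
def kDown (n : ℕ) : Fin (2 * n) → ℕ := fun i => 2 * (n - (i : ℕ) / 2)

/-- the exponents `2, 4, ..., 2n` -/
def kUp (n : ℕ) : Fin n → ℕ := fun i => 2 * ((i : ℕ) + 1)

lemma B_form : ∀ (n : ℕ) (Z : Fin (2 * n) → K) (_ : Gen Z),
    A (2 * n) (pw (kDown n)) Z = (∏ i, Z i ^ (n + 1)) * VH n (2 * n) Z
  | 0, Z, _ => by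
    simp [VH, HH]
  | n + 1, Z, hZ => by
    have hA : A (2 * (n + 1)) (pw (kDown (n + 1))) Z =
        star (fun x => x ^ (2 * (n + 1))) (star (fun x => x ^ (2 * (n + 1)))
          (A (2 * n) (pw (kDown n)))) Z := by
      have h1 : (fun i : Fin (2 * n) => (pw (kDown (n + 1)) : Fin (2 * n + 2) → K → K) i.succ.succ)
          = pw (kDown n) := by
        funext i x
        unfold pw kDown
        congr 1
        simp only [Fin.val_succ]
        omega
      have h2 : (pw (kDown (n + 1)) : Fin (2 * n + 2) → K → K) 0 = fun x => x ^ (2 * (n + 1)) := by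
        funext x
        unfold pw kDown
        simp
      have h3 : (pw (kDown (n + 1)) : Fin (2 * n + 2) → K → K) 1 = fun x => x ^ (2 * (n + 1)) := by
        funext x
        show x ^ (2 * (n + 1 - ((1 : Fin (2 * n + 2)) : ℕ) / 2)) = x ^ (2 * (n + 1))
        have hv : ((1 : Fin (2 * n + 2)) : ℕ) = 1 := rfl
        rw [hv]
        norm_num
      have h4 : A (2 * (n + 1)) (pw (kDown (n + 1))) Z =
        star ((pw (kDown (n + 1)) : Fin (2 * n + 2) → K → K) 0)
          (star ((pw (kDown (n + 1)) : Fin (2 * n + 2) → K → K) 1)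
          (A (2 * n) (fun i : Fin (2 * n) =>
            (pw (kDown (n + 1)) : Fin (2 * n + 2) → K → K) i.succ.succ))) Z := rfl
      rw [h4, h1, h2, h3]
    rw [hA]
    have hC := C_form n Z hZ
    have hC' : VH (n + 1) (2 * (n + 1)) Z = VH (n + 1) (2 * n + 2) Z := rfl
    rw [hC', hC]
    have h5 := prod_mul_star (fun x : K => x ^ (n + 2)) (fun x => x ^ n)
      (star (fun x => x ^ n) (fun z : Fin (2 * n) → K => (∏ i, (z i)⁻¹) * VH n (2 * n) z)) Z
    have h6 : (∏ i : Fin (2 * (n + 1)), Z i ^ (n + 1 + 1)) =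
      ∏ i : Fin (2 * n + 1 + 1), Z i ^ (n + 2) := rfl
    rw [h6, h5]
    apply star_congr
    · intro p
      show Z p ^ (2 * (n + 1)) = Z p ^ (n + 2) * Z p ^ n
      rw [← pow_add]; congr 1; ring
    · intro p
      simp only
      have h7 := prod_mul_star (fun x : K => x ^ (n + 2)) (fun x => x ^ n)
        (fun z : Fin (2 * n) → K => (∏ i, (z i)⁻¹) * VH n (2 * n) z)
        (fun l => Z (p.succAbove l))
      refine Eq.trans ?_ h7.symm
      apply star_congr
      · intro q
        show Z (p.succAbove q) ^ (2 * (n + 1)) = Z (p.succAbove q) ^ (n + 2) * Z (p.succAbove q) ^ n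
        rw [← pow_add]; congr 1; ring
      · intro q
        simp only
        have h8 := B_form n (fun l => Z (p.succAbove (q.succAbove l)))
          ((hZ.succAbove p).succAbove q)
        rw [h8, ← mul_assoc, ← Finset.prod_mul_distrib]
        congr 1
        refine Finset.prod_congr rfl fun l _ => ?_
        have h0 := hZ.ne_zero (p.succAbove (q.succAbove l))
        field_simp
        ring

/-- `V(X) H_{n,2n}(e_X (X-1)^n)` -/
noncomputable def GH (n : ℕ) (Z : Fin n → K) : K :=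
  (Matrix.vandermonde Z).det * HH n (2 * n) (eS Z * (X - C 1) ^ n)

lemma G_form (m : ℕ) (Z : Fin (m + 1) → K) (hZ : Gen Z) :
    GH (m + 1) Z = star (fun x => (x ^ m)⁻¹) (fun y => (∏ i, y i) * GH m y) Z := by
  set e₁ := eS Z * (X - C 1) ^ m with he₁
  have hmon : e₁.Monic := (eS_monic Z).mul ((monic_X_sub_C _).pow _)
  have hdeg : e₁.natDegree = 2 * m + 1 := by
    rw [he₁, (eS_monic Z).natDegree_mul ((monic_X_sub_C _).pow _), eS_natDegree, natDegree_pow,
      natDegree_X_sub_C]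
    ring
  set Q := QQ (m + 1) (2 * m + 1) e₁ with hQ
  have hQd : Q.natDegree ≤ m := natDegree_QQ_le m (2 * m + 1) (by omega) _ hmon hdeg
  have hlag := lag_eval (fun i => tT (Z i)) hZ.tT_inj Q hQd 1
  have hQ1 : Q.eval 1 = HH (m + 1) (2 * (m + 1)) (eS Z * (X - C 1) ^ (m + 1)) := by
    rw [hQ, ← HH_eq_eval_QQ _ _ _ hmon hdeg]
    congr 1
    rw [he₁, pow_succ]
    ring
  rw [hQ1] at hlag
  unfold GH
  rw [hlag, Finset.mul_sum]
  unfold star
  refine Finset.sum_congr rfl fun i _ => ?_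
  rw [vandermonde_succAbove Z i]
  have h0 := hZ.ne_zero i
  have h1 := hZ.ne_one i
  have h1' : 1 - Z i ≠ 0 := sub_ne_zero.mpr h1.symm
  have hval : Q.eval (tT (Z i)) = (∏ l, (sS (Z (i.succAbove l)) - uU (Z i))) *
        HH m (2 * m) (eS (fun l => Z (i.succAbove l)) * (X - C 1) ^ m) := by
    rw [hQ, ← HH_eq_eval_QQ _ _ _ hmon hdeg, he₁, eS_succAbove Z i]
    have h2 := P3' (m + 1) (2 * m) (by omega) (tT (Z i)) (sS (Z i)) (uU (Z i)) (link_sum _ h0 h1)
      (link_prod _ h0 h1) (hZ.ne_link i) (ι := Fin m ⊕ Fin m) (by simp; ring)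
      (Sum.elim (fun l => sS (Z (i.succAbove l))) (fun _ => 1))
    rw [one_sub_tT_mul _ h0 h1] at h2
    simp only [Fintype.prod_sum_type, Sum.elim_inl, Sum.elim_inr, Finset.prod_const,
      Finset.card_univ, Fintype.card_fin, Nat.add_sub_cancel] at h2
    have h3 : (Z i * (1 - Z i)) ^ m * (1 - uU (Z i)) ^ m = 1 := by
      rw [← mul_pow, one_sub_uU _ h0 h1, one_pow]
    have h4 : (Z i * (1 - Z i)) ^ m * ((∏ l, (sS (Z (i.succAbove l)) - uU (Z i))) *
        (1 - uU (Z i)) ^ m) = (∏ l, (sS (Z (i.succAbove l)) - uU (Z i))) := by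
      linear_combination (∏ l, (sS (Z (i.succAbove l)) - uU (Z i))) * h3
    rw [h4] at h2
    unfold eS
    rw [← mul_assoc] at h2
    have h5 : (X - C (tT (Z i))) * ((X - C (sS (Z i))) *
        ((∏ l, (X - C (sS (Z (i.succAbove l))))) * (X - C 1) ^ m)) =
        (X - C (tT (Z i))) * ((X - C (sS (Z i))) *
        (∏ l, (X - C (sS (Z (i.succAbove l))))) * (X - C 1) ^ m) := by ring
    rw [← h2]
    congr 1
    ring
  rw [hval]
  have hprod : (∏ l : Fin m, (Z (i.succAbove l) - Z i)) *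
      ((∏ l : Fin m, (sS (Z (i.succAbove l)) - uU (Z i))) *
        (∏ l : Fin m, ((tT (Z i) - tT (Z (i.succAbove l)))⁻¹ * (1 - tT (Z (i.succAbove l)))))) =
      ((∏ l : Fin m, Pf (Z i) (Z (i.succAbove l))) *
        (∏ l : Fin m, (Z (i.succAbove l)))) * (Z i ^ m)⁻¹ := by
    rw [← Finset.prod_mul_distrib, ← Finset.prod_mul_distrib, ← Finset.prod_mul_distrib]
    have : ∀ l : Fin m, (Z (i.succAbove l) - Z i) * ((sS (Z (i.succAbove l)) - uU (Z i)) *
        ((tT (Z i) - tT (Z (i.succAbove l)))⁻¹ * (1 - tT (Z (i.succAbove l))))) =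
        (Pf (Z i) (Z (i.succAbove l)) * (Z (i.succAbove l))) * (Z i)⁻¹ := by
      intro l
      have hne : Z (i.succAbove l) ≠ Z i := fun h' => Fin.succAbove_ne i l (hZ.inj h')
      have h6 := ratio h0 h1 (hZ.ne_zero (i.succAbove l)) (hZ.ne_one (i.succAbove l)) hne.symm
        (hZ.add_ne_mul _ _)
      have h7 : 1 - tT (Z (i.succAbove l)) = - (Z (i.succAbove l) ^ 2 *
          (1 - Z (i.succAbove l))⁻¹) := by
        rw [← tT_sub_one _ (hZ.ne_one _)]; ring
      have hd : Z (i.succAbove l) - Z i ≠ 0 := sub_ne_zero.mpr hne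
      have hz : Z (i.succAbove l) ≠ 0 := hZ.ne_zero _
      have hz1 : 1 - Z (i.succAbove l) ≠ 0 := sub_ne_zero.mpr (hZ.ne_one _).symm
      rw [← mul_assoc (sS _ - _), h6, h7]
      field_simp
    rw [Finset.prod_congr rfl fun l _ => this l, Finset.prod_mul_distrib, Finset.prod_mul_distrib]
    simp
  calc _ = (-1) ^ (i : ℕ) *
        ((∏ l : Fin m, (Z (i.succAbove l) - Z i)) *
      ((∏ l : Fin m, (sS (Z (i.succAbove l)) - uU (Z i))) *
        (∏ l : Fin m, ((tT (Z i) - tT (Z (i.succAbove l)))⁻¹ * (1 - tT (Z (i.succAbove l))))))) *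
        ((Matrix.vandermonde (fun l => Z (i.succAbove l))).det *
          HH m (2 * m) (eS (fun l => Z (i.succAbove l)) * (X - C 1) ^ m)) := by ring
    _ = _ := by
      rw [hprod]
      ring

end Pool.Agent.H37.VSASM
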