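import Pool.Agent.H37.VSASM.Star

open Finset

namespace Pool.Agent.H37.VSASM

variable {R : Type*} [CommRing R]

lemma prod_mul_A (g : R → R) : ∀ {N : ℕ} (w : Fin N → R → R) (z : Fin N → R),
    (∏ i, g (z i)) * A N w z = A N (fun i x => g x * w i x) z
  | 0, w, z => by simp
  | N + 1, w, z => by
    rw [A_succ, A_succ, prod_mul_star]
    apply star_congr (fun _ => rfl)
    intro p
    exact prod_mul_A g (fun i => w i.succ) _

lemma A_congr : ∀ {N : ℕ} {w w' : Fin N → R → R} {z : Fin N → R}
    (_ : ∀ i j, w i (z j) = w' i (z j)), A N w z = A N w' z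
  | 0, _, _, _, _ => rfl
  | N + 1, w, w', z, h => by
    rw [A_succ, A_succ]
    apply star_congr (fun p => h 0 p)
    intro p
    exact A_congr (fun i j => h i.succ _)

lemma cons_succ_succAbove {α : Type*} {N : ℕ} (a : α) (z : Fin (N + 1) → α) (q : Fin (N + 1)) :
    (fun l : Fin (N + 1) => (Fin.cons a z : Fin (N + 2) → α) (q.succ.succAbove l)) =
      (Fin.cons a (fun l => z (q.succAbove l)) : Fin (N + 1) → α) := by
  funext l
  refine Fin.cases ?_ (fun l => ?_) l
  · simp
  · simp [Fin.succ_succAbove_succ]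

/-- Evaluate the antisymmetriser with one variable equal to `1`. -/
lemma A_cons_one {N : ℕ} (w : Fin (N + 2) → R → R) (z : Fin (N + 1) → R) :
    A (N + 2) w (Fin.cons 1 z : Fin (N + 2) → R) =
      w 0 1 * A (N + 1) (fun i x => x * w i.succ x) z -
        star (w 0) (fun y => A (N + 1) (fun i => w i.succ) (Fin.cons 1 y : Fin (N + 1) → R)) z := by
  rw [A_succ]
  unfold star
  rw [Fin.sum_univ_succ, sub_eq_add_neg]
  congr 1
  · simp only [Fin.val_zero, pow_zero, one_mul, Fin.cons_zero, Fin.zero_succAbove, Fin.cons_succ]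
    rw [← prod_mul_A (fun x : R => x) (fun i => w i.succ) z]
    have : ∀ l, Pf (1 : R) (z l) = z l := fun l => by simp [Pf]
    simp only [this]
    ring
  · rw [← Finset.sum_neg_distrib]
    refine Finset.sum_congr rfl fun q _ => ?_
    rw [cons_succ_succAbove]
    have h1 : ∏ l : Fin (N + 1), Pf ((Fin.cons 1 z : Fin (N + 2) → R) q.succ)
        ((Fin.cons 1 z : Fin (N + 2) → R) (q.succ.succAbove l)) =
        ∏ l : Fin N, Pf (z q) (z (q.succAbove l)) := by
      have := cons_succ_succAbove (1 : R) z q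
      have h2 : ∀ l : Fin (N + 1), (Fin.cons 1 z : Fin (N + 2) → R) (q.succ.succAbove l) =
        (Fin.cons 1 (fun l => z (q.succAbove l)) : Fin (N + 1) → R) l := fun l => congrFun this l
      simp only [h2, Fin.cons_succ]
      rw [Fin.prod_univ_succ]
      simp [Pf]
    rw [h1]
    simp only [Fin.cons_succ, Fin.val_succ]
    ring

/-- the power weights -/
def pw {N : ℕ} (k : Fin N → ℕ) : Fin N → R → R := fun i x => x ^ k i

/-- `Rr N a k z = A (N+1) (a, k) (1, z)` -/
def Rr (N : ℕ) (a : ℕ) (k : Fin N → ℕ) (z : Fin N → R) : R :=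
  A (N + 1) (pw (Fin.cons a k : Fin (N + 1) → ℕ)) (Fin.cons 1 z : Fin (N + 1) → R)

lemma Rr_zero (a : ℕ) (k : Fin 0 → ℕ) (z : Fin 0 → R) : Rr 0 a k z = 1 := by
  simp [Rr, A_succ, star, pw]

lemma Rr_succ (N : ℕ) (a : ℕ) (k : Fin (N + 1) → ℕ) (z : Fin (N + 1) → R) :
    Rr (N + 1) a k z = A (N + 1) (pw (fun i => k i + 1)) z -
      star (fun x => x ^ a) (Rr N (k 0) (fun i => k i.succ)) z := by
  unfold Rr
  rw [A_cons_one]
  simp only [pw, Fin.cons_zero, one_pow, one_mul, Fin.cons_succ]
  congr 1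
  · apply A_congr
    intro i j
    simp only [pw]
    ring

/-- The interlacing rows: strictly increasing `l` with `a ≤ l 0 ≤ k 0`, `k (i-1) ≤ l i ≤ k i`. -/
def rows (N : ℕ) (a : ℕ) (k : Fin N → ℕ) : Finset (Fin N → ℕ) :=
  (Fintype.piFinset (fun i : Fin N =>
    Finset.Icc ((Fin.cons a k : Fin (N + 1) → ℕ) i.castSucc) (k i))).filter StrictMono

lemma mem_rows {N : ℕ} {a : ℕ} {k l : Fin N → ℕ} :
    l ∈ rows N a k ↔ (∀ i, (Fin.cons a k : Fin (N + 1) → ℕ) i.castSucc ≤ l i ∧ l i ≤ k i) ∧
      StrictMono l := by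
  simp [rows, Fintype.mem_piFinset]

lemma strictMono_cons {α : Type*} [Preorder α] {N : ℕ} (a : α) (l : Fin N → α) :
    StrictMono (Fin.cons a l : Fin (N + 1) → α) ↔ (∀ i, a < l i) ∧ StrictMono l := by
  constructor
  · intro h
    refine ⟨fun i => ?_, fun i j hij => ?_⟩
    · have := h (Fin.succ_pos i)
      simpa using this
    · have := h (Fin.succ_lt_succ_iff.mpr hij)
      simpa using this
  · rintro ⟨h1, h2⟩ i j hij
    revert hij
    refine Fin.cases ?_ (fun i => ?_) i <;> refine Fin.cases ?_ (fun j => ?_) j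
    · intro h; exact absurd h (lt_irrefl _)
    · intro _; simpa using h1 j
    · intro h; exact absurd h (by simp)
    · intro h
      simpa using h2 (Fin.succ_lt_succ_iff.mp h)

lemma cons_mem_rows_lt {N : ℕ} {a : ℕ} {k : Fin (N + 1) → ℕ} {l0 : ℕ} {l : Fin N → ℕ}
    (h0 : l0 < k 0) :
    (Fin.cons l0 l : Fin (N + 1) → ℕ) ∈ rows (N + 1) a k ↔
      a ≤ l0 ∧ l ∈ rows N (k 0) (fun i => k i.succ) := by
  rw [mem_rows, mem_rows, strictMono_cons, Fin.forall_fin_succ]
  have hk : (Fin.cons (k 0) (fun i => k i.succ) : Fin (N + 1) → ℕ) = k := by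
    funext i; refine Fin.cases ?_ (fun i => ?_) i <;> simp
  rw [hk]
  simp only [Fin.castSucc_zero, Fin.cons_zero, Fin.cons_succ]
  have hcs : ∀ i : Fin N, (Fin.cons a k : Fin (N + 2) → ℕ) i.succ.castSucc = k i.castSucc := by
    intro i
    rw [← Fin.succ_castSucc, Fin.cons_succ]
  simp only [hcs]
  constructor
  · rintro ⟨⟨⟨h1, _⟩, h3⟩, h4, h5⟩
    exact ⟨h1, h3, h5⟩
  · rintro ⟨h1, h3, h5⟩
    refine ⟨⟨⟨h1, h0.le⟩, h3⟩, fun i => ?_, h5⟩
    have h6 : k 0 ≤ l i := by
      rcases Nat.eq_zero_or_pos N with hN | hN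
      · subst hN; exact i.elim0
      · have h7 := (h3 ⟨0, hN⟩).1
        have h8 : l ⟨0, hN⟩ ≤ l i := h5.monotone (Nat.zero_le _)
        have h9 : (Fin.castSucc (⟨0, hN⟩ : Fin N)) = 0 := rfl
        rw [h9] at h7
        exact h7.trans h8
    omega

lemma cons_mem_rows_eq {N : ℕ} {a : ℕ} {k : Fin (N + 1) → ℕ} {l : Fin N → ℕ}
    (ha : a ≤ k 0) :
    (Fin.cons (k 0) l : Fin (N + 1) → ℕ) ∈ rows (N + 1) a k ↔
      l ∈ rows N (k 0 + 1) (fun i => k i.succ) := by
  rw [mem_rows, mem_rows, strictMono_cons, Fin.forall_fin_succ]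
  simp only [Fin.castSucc_zero, Fin.cons_zero, Fin.cons_succ]
  have hcs : ∀ i : Fin N, (Fin.cons a k : Fin (N + 2) → ℕ) i.succ.castSucc = k i.castSucc := by
    intro i
    rw [← Fin.succ_castSucc, Fin.cons_succ]
  simp only [hcs]
  rcases N with _ | N
  · simp [ha]
  have hcs2 : ∀ i : Fin (N + 1), (Fin.cons (k 0 + 1) (fun i : Fin (N + 1) => k i.succ) :
      Fin (N + 2) → ℕ) i.castSucc = if i = 0 then k 0 + 1 else k i.castSucc := by
    intro i
    refine Fin.cases ?_ (fun i => ?_) i
    · simp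
    · rw [← Fin.succ_castSucc, Fin.cons_succ, if_neg (Fin.succ_ne_zero i)]
  simp only [hcs2]
  constructor
  · rintro ⟨⟨⟨h1, _⟩, h3⟩, h4, h5⟩
    refine ⟨fun i => ⟨?_, (h3 i).2⟩, h5⟩
    split_ifs with hi
    · exact h4 i
    · exact (h3 i).1
  · rintro ⟨h3, h5⟩
    have h0 : k 0 + 1 ≤ l 0 := by simpa using (h3 0).1
    have h6 : ∀ i, k 0 < l i := fun i => lt_of_lt_of_le h0 (h5.monotone (Fin.zero_le i))
    refine ⟨⟨⟨ha, le_rfl⟩, fun i => ⟨?_, (h3 i).2⟩⟩, h6, h5⟩
    have := (h3 i).1
    split_ifs at this with hi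
    · subst hi
      exact (h6 0).le
    · exact this

lemma sum_rows_succ {M : Type*} [AddCommMonoid M] {N : ℕ} {a : ℕ} {k : Fin (N + 1) → ℕ}
    (ha : a ≤ k 0) (f : (Fin (N + 1) → ℕ) → M) :
    ∑ l ∈ rows (N + 1) a k, f l =
      (∑ l0 ∈ Finset.Ico a (k 0), ∑ l ∈ rows N (k 0) (fun i => k i.succ),
        f (Fin.cons l0 l : Fin (N + 1) → ℕ)) +
      ∑ l ∈ rows N (k 0 + 1) (fun i => k i.succ), f (Fin.cons (k 0) l : Fin (N + 1) → ℕ) := by
  have h1 : ∑ l ∈ rows (N + 1) a k, f l = ∑ l0 ∈ Finset.Icc a (k 0),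
      ∑ l ∈ (rows N (if l0 < k 0 then k 0 else k 0 + 1) (fun i => k i.succ)),
        f (Fin.cons l0 l : Fin (N + 1) → ℕ) := by
    rw [Finset.sum_sigma']
    refine Finset.sum_nbij' (fun l => ⟨l 0, fun i => l i.succ⟩)
      (fun x => (Fin.cons x.1 x.2 : Fin (N + 1) → ℕ)) ?_ ?_ ?_ ?_ ?_
    · intro l hl
      have hl' : (Fin.cons (l 0) (fun i => l i.succ) : Fin (N + 1) → ℕ) = l := by
        funext i; refine Fin.cases ?_ (fun i => ?_) i <;> simp
      have h2 := (mem_rows.mp hl).1 0
      simp only [Fin.castSucc_zero, Fin.cons_zero] at h2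
      simp only [Finset.mem_sigma, Finset.mem_Icc]
      refine ⟨h2, ?_⟩
      split_ifs with h3
      · rw [← hl'] at hl
        exact ((cons_mem_rows_lt h3).mp hl).2
      · have h4 : l 0 = k 0 := by omega
        rw [← hl', h4] at hl
        exact (cons_mem_rows_eq ha).mp hl
    · rintro ⟨l0, l⟩ hl
      simp only [Finset.mem_sigma, Finset.mem_Icc] at hl
      obtain ⟨⟨h1, h2⟩, h3⟩ := hl
      split_ifs at h3 with h4
      · exact (cons_mem_rows_lt h4).mpr ⟨h1, h3⟩
      · have h5 : l0 = k 0 := by omega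
        subst h5
        exact (cons_mem_rows_eq ha).mpr h3
    · intro l _
      funext i; refine Fin.cases ?_ (fun i => ?_) i <;> simp
    · rintro ⟨l0, l⟩ _
      simp
    · intro l _
      congr 1
      funext i; refine Fin.cases ?_ (fun i => ?_) i <;> simp
  rw [h1, ← Finset.Ico_insert_right ha, Finset.sum_insert (by simp), add_comm]
  congr 1
  · refine Finset.sum_congr rfl fun l0 hl0 => ?_
    rw [if_pos (Finset.mem_Ico.mp hl0).2]
  · rw [if_neg (lt_irrefl _)]

lemma geom_tele (a b : ℕ) (h : a ≤ b) (x : R) :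
    ∑ l ∈ Finset.Ico a b, (x ^ l * (x - 1)) = x ^ b - x ^ a := by
  induction b, h using Nat.le_induction with
  | base => simp
  | succ b hb ih =>
    rw [Finset.sum_Ico_succ_top hb, ih]
    ring

lemma pow_relation {N : ℕ} (k : ℕ) (f : (Fin N → R) → R) (z : Fin (N + 2) → R) :
    star (fun x => x ^ k) (star (fun x => x ^ k) f) z
      + star (fun x => x ^ (k + 1)) (star (fun x => x ^ (k + 1)) f) z
      - star (fun x => x ^ k) (star (fun x => x ^ (k + 1)) f) z = 0 := by
  have := sum_star_star_eq_zero (Finset.univ : Finset (Fin 3)) ![1, 1, -1]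
    ![fun x : R => x ^ k, fun x => x ^ (k + 1), fun x => x ^ k]
    ![fun x : R => x ^ k, fun x => x ^ (k + 1), fun x => x ^ (k + 1)] f z
    (by
      intro i j _
      simp only [Fin.sum_univ_three, Matrix.cons_val_zero, Matrix.cons_val_one, Matrix.cons_val]
      simp only [Pf]
      ring)
  simp only [Fin.sum_univ_three, Matrix.cons_val_zero, Matrix.cons_val_one, Matrix.cons_val] at this
  linear_combination this

/-- The branching rule: sum over interlacing rows. -/
lemma branching : ∀ (N : ℕ) (a : ℕ) (k : Fin N → ℕ) (_ : StrictMono (Fin.cons a k : Fin (N + 1) → ℕ)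
      ∨ (∃ hN : 0 < N, a = k ⟨0, hN⟩ ∧ StrictMono k)) (z : Fin N → R),
    ∑ l ∈ rows N a k, A N (fun i x => x ^ l i * (x - 1)) z = Rr N a k z
  | 0, a, k, _, z => by
    rw [Rr_zero]
    have : rows 0 a k = {Fin.elim0} := by
      ext l
      rw [mem_rows]
      simp only [IsEmpty.forall_iff, true_and, Finset.mem_singleton]
      constructor
      · intro _; funext i; exact i.elim0
      · intro _ i; exact i.elim0
    rw [this]
    simp
  | N + 1, a, k, hk, z => by
    have hak : a ≤ k 0 := by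
      rcases hk with hk | ⟨_, h, _⟩
      · have := hk (Fin.succ_pos (0 : Fin (N + 1)))
        simp at this
        exact this.le
      · exact h.le
    have hks : StrictMono k := by
      rcases hk with hk | ⟨_, _, h⟩
      · exact ((strictMono_cons _ _).mp hk).2
      · exact h
    have hkcons : (Fin.cons (k 0) (fun i => k i.succ) : Fin (N + 1) → ℕ) = k := by
      funext i; refine Fin.cases ?_ (fun i => ?_) i <;> simp
    have h1 : StrictMono (Fin.cons (k 0) (fun i => k i.succ) : Fin (N + 1) → ℕ) ∨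
        (∃ hN : 0 < N, k 0 = (fun i : Fin N => k i.succ) ⟨0, hN⟩ ∧
          StrictMono (fun i : Fin N => k i.succ)) := by
      left; rw [hkcons]; exact hks
    have hks' : StrictMono (fun i : Fin N => k i.succ) := by
      intro i j hij
      exact hks (Fin.succ_lt_succ_iff.mpr hij)
    have h2 : StrictMono (Fin.cons (k 0 + 1) (fun i => k i.succ) : Fin (N + 1) → ℕ) ∨
        (∃ hN : 0 < N, k 0 + 1 = (fun i : Fin N => k i.succ) ⟨0, hN⟩ ∧
          StrictMono (fun i : Fin N => k i.succ)) := by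
      rcases Nat.eq_zero_or_pos N with hN | hN
      · subst hN
        left
        intro i j hij
        have := i.2; have := j.2
        have h3 : i < j := hij
        omega
      · have h3 : k 0 < k (Fin.succ ⟨0, hN⟩) := hks (Fin.succ_pos _)
        rcases Nat.lt_or_ge (k 0 + 1) (k (Fin.succ ⟨0, hN⟩)) with h4 | h4
        · left
          rw [strictMono_cons]
          refine ⟨fun i => ?_, hks'⟩
          have : k (Fin.succ ⟨0, hN⟩) ≤ k i.succ := by
            apply hks.monotone
            rw [Fin.succ_le_succ_iff]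
            exact Nat.zero_le _
          omega
        · right
          exact ⟨hN, by simp only; omega, hks'⟩
    rw [sum_rows_succ hak]
    have e1 : ∀ l0 : ℕ, ∑ l ∈ rows N (k 0) (fun i => k i.succ),
        A (N + 1) (fun i x => x ^ (Fin.cons l0 l : Fin (N + 1) → ℕ) i * (x - 1)) z =
        star (fun x => x ^ l0 * (x - 1)) (Rr N (k 0) (fun i => k i.succ)) z := by
      intro l0
      simp only [A_succ, Fin.cons_zero, Fin.cons_succ]
      rw [← star_sum_right]
      apply star_congr (fun _ => rfl)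
      intro p
      exact branching N (k 0) _ h1 _
    have e2 : ∑ l ∈ rows N (k 0 + 1) (fun i => k i.succ),
        A (N + 1) (fun i x => x ^ (Fin.cons (k 0) l : Fin (N + 1) → ℕ) i * (x - 1)) z =
        star (fun x => x ^ (k 0) * (x - 1)) (Rr N (k 0 + 1) (fun i => k i.succ)) z := by
      simp only [A_succ, Fin.cons_zero, Fin.cons_succ]
      rw [← star_sum_right]
      apply star_congr (fun _ => rfl)
      intro p
      exact branching N (k 0 + 1) _ h2 _
    simp only [e1, e2]
    rw [← star_sum_left, Rr_succ]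
    have e3 : star (fun x => ∑ l0 ∈ Finset.Ico a (k 0), x ^ l0 * (x - 1))
        (Rr N (k 0) (fun i => k i.succ)) z =
        star (fun x => x ^ (k 0) - x ^ a) (Rr N (k 0) (fun i => k i.succ)) z := by
      apply star_congr (fun p => geom_tele a (k 0) hak (z p)) (fun _ => rfl)
    rw [e3, star_sub_left]
    have e4 : star (fun x => x ^ (k 0)) (Rr N (k 0) (fun i => k i.succ)) z +
        star (fun x => x ^ (k 0) * (x - 1)) (Rr N (k 0 + 1) (fun i => k i.succ)) z =
        A (N + 1) (pw (fun i => k i + 1)) z := by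
      rw [A_succ]
      have hsub : star (fun x : R => x ^ (k 0) * (x - 1)) (Rr N (k 0 + 1) (fun i => k i.succ)) z =
          star (fun x => x ^ (k 0 + 1)) (Rr N (k 0 + 1) (fun i => k i.succ)) z -
          star (fun x => x ^ (k 0)) (Rr N (k 0 + 1) (fun i => k i.succ)) z := by
        rw [← star_sub_left]
        apply star_congr (fun p => by ring) (fun _ => rfl)
      rw [hsub]
      rcases N with _ | N
      · have h5 : ∀ b : ℕ, (Rr 0 b (fun i : Fin 0 => k i.succ) : (Fin 0 → R) → R) = fun _ => 1 := by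
          intro b; funext y; exact Rr_zero _ _ _
        have h6 : (A 0 (fun i : Fin 0 => pw (fun i => k i + 1) i.succ) : (Fin 0 → R) → R) =
          fun _ => 1 := by funext y; rfl
        rw [h6, h5, h5]
        change _ = star (fun x : R => x ^ (k 0 + 1)) (fun _ => 1) z
        ring
      · have h5 : ∀ b : ℕ, (Rr (N + 1) b (fun i : Fin (N + 1) => k i.succ) :
            (Fin (N + 1) → R) → R) = fun y => A (N + 1) (pw (fun i => k i.succ + 1)) y -
              star (fun x => x ^ b) (Rr N (k 1) (fun i => k i.succ.succ)) y := by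
          intro b; funext y
          exact Rr_succ N b _ y
        simp only [h5, star_sub_right]
        have h6 := pow_relation (k 0) (Rr N (k 1) (fun i : Fin N => k i.succ.succ)) z
        have h7 : star (fun x : R => pw (fun i => k i + 1) 0 x)
          (A (N + 1) (fun i : Fin (N + 1) => pw (fun i => k i + 1) i.succ)) z =
          star (fun x => x ^ (k 0 + 1)) (fun y => A (N + 1) (pw (fun i => k i.succ + 1)) y) z := rfl
        rw [show (pw (fun i => k i + 1) 0 : R → R) = (fun x : R => pw (fun i => k i + 1) 0 x) from rfl,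
          h7]
        linear_combination -h6
    linear_combination e4

/-- Branching rule without the factors `x - 1`. -/
lemma branching' {N : ℕ} (k : Fin (N + 1) → ℕ) (hk : StrictMono k) (z : Fin N → R) :
    A (N + 1) (pw k) (Fin.cons 1 z : Fin (N + 1) → R) =
      (∏ i, (z i - 1)) * ∑ l ∈ rows N (k 0) (fun i => k i.succ), A N (pw l) z := by
  have hkcons : (Fin.cons (k 0) (fun i => k i.succ) : Fin (N + 1) → ℕ) = k := by
    funext i; refine Fin.cases ?_ (fun i => ?_) i <;> simp
  have := branching N (k 0) (fun i => k i.succ) (Or.inl (by rw [hkcons]; exact hk)) z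
  unfold Rr at this
  rw [hkcons] at this
  rw [← this, Finset.mul_sum]
  refine Finset.sum_congr rfl fun l _ => ?_
  rw [prod_mul_A (fun x : R => x - 1)]
  apply A_congr
  intro i j
  simp only [pw]
  ring

end Pool.Agent.H37.VSASM
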