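import Pool.Agent.H37.VSASM.Eform
import Pool.Agent.H37.VSASM.Tele

open Finset Polynomial

namespace Pool.Agent.H37.VSASM

lemma HH_top_generic {R : Type*} [CommRing R] [IsDomain R] (M N : ℕ) (hN : N ≤ 2 * M)
    (S : Fin N → R) (hS : Function.Injective S) :
    HH (M + 1) N (∏ i, (X - C (S i))) = (∏ i, (1 - S i)) * HH M N (∏ i, (X - C (S i))) := by
  have h1 := det_eval (M + 1) S
  have h2 := det_eval M S
  have hV : (Matrix.vandermonde S).det ≠ 0 := Matrix.det_vandermonde_ne_zero_iff.mpr hS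
  apply mul_right_cancel₀ hV
  rw [mul_assoc, ← h1, ← h2, ← Matrix.det_mul_column]
  congr 1
  ext i k
  simp only [Matrix.of_apply]
  have hk : (k : ℕ) < N := k.2
  have h3 : phi R (M + 1) (k : ℕ) = (1 - X) * phi R M (k : ℕ) := by
    unfold phi
    have h4 : M + 1 - 1 - (k : ℕ) / 2 = (M - 1 - (k : ℕ) / 2) + 1 := by omega
    rw [h4, pow_succ]
    ring
  rw [h3]
  simp

lemma HH_top {R : Type*} [CommRing R] [IsDomain R] (M N : ℕ) (hN : N ≤ 2 * M)
    (S : Fin N → R) :
    HH (M + 1) N (∏ i, (X - C (S i))) = (∏ i, (1 - S i)) * HH M N (∏ i, (X - C (S i))) := by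
  have e1 := HH_top_generic (R := MvPolynomial (Fin N) R) M N hN
    (fun i => MvPolynomial.X i) (MvPolynomial.X_injective)
  have e2 := congrArg (MvPolynomial.aeval S : MvPolynomial (Fin N) R →ₐ[R] R).toRingHom e1
  rw [map_mul, HH_map, HH_map] at e2
  · simpa [Polynomial.map_mul, Polynomial.map_sub, Polynomial.map_prod, map_prod] using e2
  · exact monic_prod_X_sub_C' _
  · exact monic_prod_X_sub_C' _

variable {K : Type*} [Field K]

lemma VH_top (M N : ℕ) (hN : N ≤ 2 * M) (Z : Fin N → K) (h0 : ∀ i, Z i ≠ 0) :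
    VH (M + 1) N Z = (∏ i, (-((1 - Z i) ^ 2 * (Z i)⁻¹))) * VH M N Z := by
  unfold VH eS
  rw [HH_top M N hN]
  rw [Finset.prod_congr rfl fun i _ => one_sub_sS (Z i) (h0 i)]
  ring

lemma C_form (m : ℕ) (Z : Fin (2 * m + 2) → K) (hZ : Gen Z) :
    VH (m + 1) (2 * m + 2) Z = star (fun x => x ^ m) (star (fun x => x ^ m)
      (fun z : Fin (2 * m) → K => (∏ i, (z i)⁻¹) * VH m (2 * m) z)) Z := by
  -- the outer step
  have h1 := E_form (m + 1) (2 * m + 1) (by omega) Z hZ
  have h2 := VH_top (m + 1) (2 * m + 2) (by omega) Z hZ.ne_zero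
  rw [h2] at h1
  have hodd : ((-1 : K)) ^ (2 * m + 1) = -1 := by
    rw [pow_succ, pow_mul]; simp
  have e1 : 2 * m + 1 - (m + 1) = m := by omega
  have e2 : 2 * (m + 1) - (2 * m + 1) = 1 := by omega
  rw [hodd, e1, e2] at h1
  -- the inner step
  have h3 : star (fun x => x ^ m * (1 - x) ^ 1)
      (fun y => (∏ i, ((1 - y i) * (y i)⁻¹)) * VH (m + 1) (2 * m + 1) y) Z =
      star (fun x => x ^ m * (1 - x) ^ 1)
      (star (fun x => ((1 - x) * x⁻¹) * x ^ m)
        (fun z => (∏ i, ((1 - z i) * (z i)⁻¹)) * ((∏ i, ((1 - z i) * (z i)⁻¹)) *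
          VH m (2 * m) z))) Z := by
    apply star_congr (fun _ => rfl)
    intro p
    have h4 := E_form m (2 * m) (by omega) (fun l => Z (p.succAbove l)) (hZ.succAbove p)
    have e3 : 2 * m - m = m := by omega
    have e4 : 2 * m - 2 * m = 0 := by omega
    rw [e3, e4] at h4
    simp only [pow_zero, mul_one, pow_mul, neg_one_sq, one_pow, one_mul] at h4
    show (∏ i, ((1 - Z (p.succAbove i)) * (Z (p.succAbove i))⁻¹)) *
      VH (m + 1) (2 * m + 1) (fun l => Z (p.succAbove l)) = _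
    rw [h4]
    exact prod_mul_star (fun x : K => (1 - x) * x⁻¹) (fun x => x ^ m) _
      (fun l => Z (p.succAbove l))
  rw [h3] at h1
  -- multiply by `∏ Z / (1 - Z)^2`
  have h5 : VH (m + 1) (2 * m + 2) Z = (∏ i, (Z i * ((1 - Z i)⁻¹) ^ 2)) *
      ((∏ i, (-((1 - Z i) ^ 2 * (Z i)⁻¹))) * VH (m + 1) (2 * m + 2) Z) := by
    rw [← mul_assoc, ← Finset.prod_mul_distrib]
    have : ∀ i : Fin (2 * m + 2), (Z i * ((1 - Z i)⁻¹) ^ 2) * (-((1 - Z i) ^ 2 * (Z i)⁻¹)) = -1 := by
      intro i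
      have h0 := hZ.ne_zero i
      have h1' : 1 - Z i ≠ 0 := sub_ne_zero.mpr (hZ.ne_one i).symm
      field_simp
    rw [Finset.prod_congr rfl fun i _ => this i]
    have h6 : ((-1 : K)) ^ (2 * m + 2) = 1 := by
      rw [show 2 * m + 2 = 2 * (m + 1) by ring, pow_mul]; simp
    simp only [Finset.prod_const, Finset.card_univ, Fintype.card_fin, h6, one_mul]
  rw [h5, h1]
  have h7 := prod_mul_star (fun x : K => x * ((1 - x)⁻¹) ^ 2) (fun x => x ^ m * (1 - x) ^ 1)
    (star (fun x => ((1 - x) * x⁻¹) * x ^ m)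
        (fun z : Fin (2 * m) → K => (∏ i, ((1 - z i) * (z i)⁻¹)) * ((∏ i, ((1 - z i) * (z i)⁻¹)) *
          VH m (2 * m) z))) Z
  rw [neg_one_mul, mul_neg, h7]
  -- identify with the standard form
  have h8 : star (fun x => (x * ((1 - x)⁻¹) ^ 2) * (x ^ m * (1 - x) ^ 1))
      (fun y => (∏ i, (y i * ((1 - y i)⁻¹) ^ 2)) *
        star (fun x => ((1 - x) * x⁻¹) * x ^ m)
        (fun z : Fin (2 * m) → K => (∏ i, ((1 - z i) * (z i)⁻¹)) * ((∏ i, ((1 - z i) * (z i)⁻¹)) *
          VH m (2 * m) z)) y) Z =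
      star (fun x => x ^ (m + 1) * (1 - x)⁻¹) (star (fun x => x ^ m * (1 - x)⁻¹)
        (fun z : Fin (2 * m) → K => (∏ i, (z i)⁻¹) * VH m (2 * m) z)) Z := by
    apply star_congr
    · intro p
      have h1' : 1 - Z p ≠ 0 := sub_ne_zero.mpr (hZ.ne_one p).symm
      field_simp
      ring
    · intro p
      have h9 := prod_mul_star (fun x : K => x * ((1 - x)⁻¹) ^ 2) (fun x => ((1 - x) * x⁻¹) * x ^ m)
        (fun z : Fin (2 * m) → K => (∏ i, ((1 - z i) * (z i)⁻¹)) * ((∏ i, ((1 - z i) * (z i)⁻¹)) *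
          VH m (2 * m) z)) (fun l => Z (p.succAbove l))
      refine Eq.trans h9 ?_
      apply star_congr
      · intro q
        have h0 := hZ.ne_zero (p.succAbove q)
        have h1' : 1 - Z (p.succAbove q) ≠ 0 := sub_ne_zero.mpr (hZ.ne_one _).symm
        field_simp
      · intro q
        simp only
        rw [← mul_assoc, ← mul_assoc, ← Finset.prod_mul_distrib, ← Finset.prod_mul_distrib]
        congr 1
        refine Finset.prod_congr rfl fun l _ => ?_
        have h0 := hZ.ne_zero (p.succAbove (q.succAbove l))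
        have h1' : 1 - Z (p.succAbove (q.succAbove l)) ≠ 0 := sub_ne_zero.mpr (hZ.ne_one _).symm
        field_simp
  rw [h8]
  have h10 : star (fun x => x ^ m) (star (fun x => x ^ m)
        (fun z : Fin (2 * m) → K => (∏ i, (z i)⁻¹) * VH m (2 * m) z)) Z =
      star (fun x => -(x ^ (m + 1) * (1 - x)⁻¹)) (star (fun x => x ^ m * (1 - x)⁻¹)
        (fun z : Fin (2 * m) → K => (∏ i, (z i)⁻¹) * VH m (2 * m) z)) Z := by
    apply star_star_eq
    intro i j _
    have h1' : 1 - Z i ≠ 0 := sub_ne_zero.mpr (hZ.ne_one i).symm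
    have h2' : 1 - Z j ≠ 0 := sub_ne_zero.mpr (hZ.ne_one j).symm
    unfold Pf
    field_simp
    ring
  rw [h10]
  unfold star
  rw [← Finset.sum_neg_distrib]
  refine Finset.sum_congr rfl fun p _ => ?_
  ring

end Pool.Agent.H37.VSASM
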