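import Pool.Agent.H37.VSASM.MT

open Finset

namespace Pool.Agent.H37.VSASM

lemma star_map {R S : Type*} [CommRing R] [CommRing S] (φ : R →+* S) {N : ℕ} (w : R → R)
    (w' : S → S) (hw : ∀ x, φ (w x) = w' (φ x)) (f : (Fin N → R) → R) (f' : (Fin N → S) → S)
    (hf : ∀ y, φ (f y) = f' (fun i => φ (y i))) (z : Fin (N + 1) → R) :
    φ (star w f z) = star w' f' (fun i => φ (z i)) := by
  unfold star
  simp only [map_sum, map_mul, map_prod, map_pow, map_neg, map_one, Pf, map_add, map_sub, hw, hf]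

lemma A_map {R S : Type*} [CommRing R] [CommRing S] (φ : R →+* S) : ∀ {N : ℕ} (w : Fin N → R → R)
    (w' : Fin N → S → S) (_ : ∀ i x, φ (w i x) = w' i (φ x)) (z : Fin N → R),
    φ (A N w z) = A N w' (fun i => φ (z i))
  | 0, _, _, _, _ => by simp
  | N + 1, w, w', hw, z => by
    rw [A_succ, A_succ]
    exact star_map φ _ _ (hw 0) _ _ (fun y => A_map φ _ _ (fun i => hw i.succ) y) z

lemma A_pw_map {R S : Type*} [CommRing R] [CommRing S] (φ : R →+* S) {N : ℕ} (k : Fin N → ℕ)
    (z : Fin N → R) : φ (A N (pw k) z) = A N (pw k) (fun i => φ (z i)) :=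
  A_map φ _ _ (fun i x => by simp [pw]) z

/-- the exponent vector `(0, 1, ..., N-1)` -/
noncomputable def idx (N : ℕ) : Fin N →₀ ℕ := Finsupp.equivFunOnFinite.symm (fun i => (i : ℕ))

lemma idx_apply (N : ℕ) (i : Fin N) : idx N i = (i : ℕ) := by
  simp [idx]

/-- `Apoly N k` is the antisymmetriser at `z i = 1 + X i`. -/
noncomputable def Apoly (N : ℕ) (k : Fin N → ℕ) : MvPolynomial (Fin N) ℚ :=
  A N (pw k) (fun i => 1 + MvPolynomial.X i)

/-- `alphaN N k` : the coefficient of `X_0^0 X_1^1 ⋯` in `Apoly N k`. -/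
noncomputable def alphaN (N : ℕ) (k : Fin N → ℕ) : ℚ := MvPolynomial.coeff (idx N) (Apoly N k)

lemma coeff_zero_finSuccEquiv (N : ℕ) (f : MvPolynomial (Fin (N + 1)) ℚ) :
    Polynomial.coeff (MvPolynomial.finSuccEquiv ℚ N f) 0 =
      MvPolynomial.aeval (Fin.cons 0 MvPolynomial.X : Fin (N + 1) → MvPolynomial (Fin N) ℚ) f := by
  rw [Polynomial.coeff_zero_eq_eval_zero]
  have h : ((Polynomial.evalRingHom (0 : MvPolynomial (Fin N) ℚ)).comp
      ((MvPolynomial.finSuccEquiv ℚ N : MvPolynomial (Fin (N + 1)) ℚ →+*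
        Polynomial (MvPolynomial (Fin N) ℚ)))) =
      ((MvPolynomial.aeval (Fin.cons 0 MvPolynomial.X :
        Fin (N + 1) → MvPolynomial (Fin N) ℚ) : MvPolynomial (Fin (N + 1)) ℚ →ₐ[ℚ] _) :
        MvPolynomial (Fin (N + 1)) ℚ →+* MvPolynomial (Fin N) ℚ) := by
    apply MvPolynomial.ringHom_ext
    · intro r
      simp [MvPolynomial.finSuccEquiv_apply, MvPolynomial.algebraMap_eq]
    · intro i
      refine Fin.cases ?_ (fun i => ?_) i
      · simp [MvPolynomial.finSuccEquiv_X_zero]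
      · simp [MvPolynomial.finSuccEquiv_X_succ]
  exact congrArg (fun φ : MvPolynomial (Fin (N + 1)) ℚ →+* MvPolynomial (Fin N) ℚ => φ f) h

lemma coeff_idx_succ (N : ℕ) (f : MvPolynomial (Fin (N + 1)) ℚ) (h : MvPolynomial (Fin N) ℚ)
    (hfh : MvPolynomial.aeval (Fin.cons 0 MvPolynomial.X : Fin (N + 1) → MvPolynomial (Fin N) ℚ) f =
      (∏ i, MvPolynomial.X i) * h) :
    MvPolynomial.coeff (idx (N + 1)) f = MvPolynomial.coeff (idx N) h := by
  have h1 : idx (N + 1) = Finsupp.cons 0 (idx N + Finsupp.equivFunOnFinite.symm (fun _ => 1)) := by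
    ext i
    refine Fin.cases ?_ (fun i => ?_) i
    · simp [idx_apply]
    · simp [idx_apply]
  rw [h1, ← MvPolynomial.finSuccEquiv_coeff_coeff, coeff_zero_finSuccEquiv, hfh]
  have h2 : (∏ i : Fin N, MvPolynomial.X i : MvPolynomial (Fin N) ℚ) =
      MvPolynomial.monomial (Finsupp.equivFunOnFinite.symm (fun _ => 1)) 1 := by
    rw [MvPolynomial.monomial_eq]
    simp [Finsupp.prod_fintype]
  rw [h2, add_comm, MvPolynomial.coeff_monomial_mul, one_mul]

lemma alphaN_zero (k : Fin 0 → ℕ) : alphaN 0 k = 1 := by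
  unfold alphaN Apoly
  rw [A_zero]
  have : idx 0 = 0 := by ext i; exact i.elim0
  rw [this]
  simp

/-- The recursion for `alphaN` at strictly increasing `k`. -/
lemma alphaN_succ (N : ℕ) (k : Fin (N + 1) → ℕ) (hk : StrictMono k) :
    alphaN (N + 1) k = ∑ l ∈ rows N (k 0) (fun i => k i.succ), alphaN N l := by
  unfold alphaN
  rw [← MvPolynomial.coeff_sum]
  apply coeff_idx_succ
  unfold Apoly
  have := A_pw_map ((MvPolynomial.aeval (Fin.cons 0 MvPolynomial.X :
        Fin (N + 1) → MvPolynomial (Fin N) ℚ) : MvPolynomial (Fin (N + 1)) ℚ →ₐ[ℚ] _) :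
        MvPolynomial (Fin (N + 1)) ℚ →+* MvPolynomial (Fin N) ℚ) k (fun i => 1 + MvPolynomial.X i)
  rw [AlgHom.coe_toRingHom] at this
  rw [this]
  have h2 : (fun i : Fin (N + 1) => ((MvPolynomial.aeval (Fin.cons 0 MvPolynomial.X :
        Fin (N + 1) → MvPolynomial (Fin N) ℚ) : MvPolynomial (Fin (N + 1)) ℚ →ₐ[ℚ] _))
        (1 + MvPolynomial.X i)) =
      (Fin.cons 1 (fun i => 1 + MvPolynomial.X i) : Fin (N + 1) → MvPolynomial (Fin N) ℚ) := by
    funext i
    refine Fin.cases ?_ (fun i => ?_) i <;> simp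
  rw [h2, branching' k hk]
  congr 1
  refine Finset.prod_congr rfl fun i _ => ?_
  ring

lemma sum_rowsZ_eq (N : ℕ) (k : Fin (N + 1) → ℕ) {M : Type*} [AddCommMonoid M]
    (f : (Fin N → ℤ) → M) :
    ∑ l ∈ rowsZ N (fun i => (k i : ℤ)), f l =
      ∑ l ∈ rows N (k 0) (fun i => k i.succ), f (fun i => (l i : ℤ)) := by
  have hkcons : (Fin.cons (k 0) (fun i => k i.succ) : Fin (N + 1) → ℕ) = k := by
    funext i; refine Fin.cases ?_ (fun i => ?_) i <;> simp
  symm
  refine Finset.sum_nbij' (fun l i => (l i : ℤ)) (fun l i => (l i).toNat) ?_ ?_ ?_ ?_ ?_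
  · intro l hl
    rw [mem_rows, hkcons] at hl
    rw [mem_rowsZ]
    refine ⟨fun i => ⟨by exact_mod_cast (hl.1 i).1, by exact_mod_cast (hl.1 i).2⟩, fun i j hij => ?_⟩
    have := hl.2 hij
    show (l i : ℤ) < l j
    exact_mod_cast this
  · intro l hl
    rw [mem_rowsZ] at hl
    rw [mem_rows, hkcons]
    refine ⟨fun i => ?_, fun i j hij => ?_⟩
    · have := hl.1 i
      omega
    · have h1 := hl.2 hij
      have h2 := hl.1 i
      simp only
      omega
  · intro l _
    funext i
    simp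
  · intro l hl
    rw [mem_rowsZ] at hl
    funext i
    have := hl.1 i
    simp only
    omega
  · intro l _
    rfl

/-- The number of monotone triangles is `alphaN` (for natural strictly increasing bottom rows). -/
lemma numMT_eq_alphaN : ∀ (N : ℕ) (k : Fin N → ℕ), StrictMono k →
    (numMT N (fun i => (k i : ℤ)) : ℚ) = alphaN N k
  | 0, k, _ => by rw [numMT_zero, alphaN_zero]; simp
  | N + 1, k, hk => by
    rw [numMT_succ N _ (fun i j hij => by exact_mod_cast hk hij), alphaN_succ N k hk,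
      sum_rowsZ_eq]
    push_cast
    refine Finset.sum_congr rfl fun l hl => ?_
    exact numMT_eq_alphaN N l (mem_rows.mp hl).2

/-! ### Polynomiality -/

/-- families of polynomials whose coefficients are polynomial functions of `k` -/
def PolyFam (N : ℕ) {σ : Type*} (f : (Fin N → ℕ) → MvPolynomial σ ℚ) : Prop :=
  ∀ m, ∃ Q : MvPolynomial (Fin N) ℚ, ∀ k : Fin N → ℕ,
    MvPolynomial.coeff m (f k) = MvPolynomial.eval (fun i => (k i : ℚ)) Q

lemma PolyFam.const {N : ℕ} {σ : Type*} (p : MvPolynomial σ ℚ) : PolyFam N (fun _ => p) :=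
  fun m => ⟨MvPolynomial.C (MvPolynomial.coeff m p), fun k => by simp⟩

lemma PolyFam.add {N : ℕ} {σ : Type*} {f g : (Fin N → ℕ) → MvPolynomial σ ℚ}
    (hf : PolyFam N f) (hg : PolyFam N g) : PolyFam N (fun k => f k + g k) := by
  intro m
  obtain ⟨Q, hQ⟩ := hf m
  obtain ⟨Q', hQ'⟩ := hg m
  exact ⟨Q + Q', fun k => by simp [hQ, hQ']⟩

lemma PolyFam.sum {N : ℕ} {σ ι : Type*} (s : Finset ι) {f : ι → (Fin N → ℕ) → MvPolynomial σ ℚ}
    (hf : ∀ a ∈ s, PolyFam N (f a)) : PolyFam N (fun k => ∑ a ∈ s, f a k) := by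
  classical
  induction s using Finset.induction_on with
  | empty => simpa using PolyFam.const (0 : MvPolynomial σ ℚ)
  | insert a s ha ih =>
    have h1 := hf a (Finset.mem_insert_self a s)
    have h2 := ih (fun b hb => hf b (Finset.mem_insert_of_mem hb))
    have h3 := h1.add h2
    intro m
    obtain ⟨Q, hQ⟩ := h3 m
    refine ⟨Q, fun k => ?_⟩
    show MvPolynomial.coeff m (∑ a ∈ insert a s, f a k) = _
    rw [Finset.sum_insert ha]
    exact hQ k

lemma PolyFam.mul {N : ℕ} {σ : Type*} {f g : (Fin N → ℕ) → MvPolynomial σ ℚ}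
    (hf : PolyFam N f) (hg : PolyFam N g) : PolyFam N (fun k => f k * g k) := by
  classical
  intro m
  choose Q hQ using hf
  choose Q' hQ' using hg
  refine ⟨∑ x ∈ Finset.HasAntidiagonal.antidiagonal m, Q x.1 * Q' x.2, fun k => ?_⟩
  rw [MvPolynomial.coeff_mul, map_sum]
  refine Finset.sum_congr rfl fun x _ => ?_
  rw [hQ, hQ', map_mul]

lemma choose_poly (N : ℕ) (i : Fin N) (r : ℕ) : ∃ Q : MvPolynomial (Fin N) ℚ,
    ∀ k : Fin N → ℕ, ((k i).choose r : ℚ) = MvPolynomial.eval (fun i => (k i : ℚ)) Q := by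
  induction r with
  | zero => exact ⟨1, fun k => by simp⟩
  | succ r ih =>
    obtain ⟨Q, hQ⟩ := ih
    refine ⟨MvPolynomial.C (1 / ((r : ℚ) + 1)) * (Q * (MvPolynomial.X i - MvPolynomial.C (r : ℚ))),
      fun k => ?_⟩
    have h := Nat.choose_succ_right_eq (k i) r
    have h2 : ((k i).choose (r + 1) : ℚ) * ((r : ℚ) + 1) = ((k i).choose r : ℚ) * ((k i : ℚ) - r) := by
      rcases Nat.lt_or_ge (k i) r with hlt | hge
      · rw [Nat.choose_eq_zero_of_lt hlt, Nat.choose_eq_zero_of_lt (by omega)]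
        simp
      · have h3 : (((k i).choose (r + 1) * (r + 1) : ℕ) : ℚ) = (((k i).choose r * (k i - r) : ℕ) : ℚ) := by
          rw [h]
        push_cast [Nat.cast_sub hge] at h3
        exact h3
    simp only [map_mul, map_sub, MvPolynomial.eval_C, MvPolynomial.eval_X, ← hQ]
    have h4 : ((r : ℚ) + 1) ≠ 0 := by positivity
    field_simp
    linarith

lemma PolyFam.pow_X {N : ℕ} {σ : Type*} (i : Fin N) (j : σ) :
    PolyFam N (fun k => (1 + MvPolynomial.X j : MvPolynomial σ ℚ) ^ (k i)) := by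
  classical
  intro m
  by_cases hm : m = Finsupp.single j (m j)
  · obtain ⟨Q, hQ⟩ := choose_poly N i (m j)
    refine ⟨Q, fun k => ?_⟩
    show MvPolynomial.coeff m ((1 + MvPolynomial.X j : MvPolynomial σ ℚ) ^ (k i)) = _
    rw [← hQ, add_pow, MvPolynomial.coeff_sum]
    have h1 : ∀ x ∈ Finset.range (k i + 1), MvPolynomial.coeff m
        ((1 : MvPolynomial σ ℚ) ^ x * MvPolynomial.X j ^ (k i - x) * ((k i).choose x : MvPolynomial σ ℚ))
        = if k i - x = m j then ((k i).choose x : ℚ) else 0 := by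
      intro x _
      rw [one_pow, one_mul, mul_comm, ← map_natCast (MvPolynomial.C : ℚ →+* MvPolynomial σ ℚ),
        MvPolynomial.coeff_C_mul, MvPolynomial.coeff_X_pow]
      by_cases hx : k i - x = m j
      · rw [hx, if_pos hm.symm, if_pos rfl, mul_one]
      · rw [if_neg, if_neg hx, mul_zero]
        intro h
        apply hx
        rw [← h]
        simp
    rw [Finset.sum_congr rfl h1]
    rcases Nat.lt_or_ge (k i) (m j) with hlt | hge
    · rw [Nat.choose_eq_zero_of_lt hlt, Finset.sum_eq_zero]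
      · simp
      · intro x _
        rw [if_neg (by omega)]
    · rw [Finset.sum_eq_single (k i - m j)]
      · rw [if_pos (by omega), Nat.choose_symm hge]
      · intro x hx hne
        rw [if_neg]
        intro h
        rw [Finset.mem_range] at hx
        omega
      · intro h
        exact absurd (Finset.mem_range.mpr (by omega)) h
  · refine ⟨0, fun k => ?_⟩
    show MvPolynomial.coeff m ((1 + MvPolynomial.X j : MvPolynomial σ ℚ) ^ (k i)) = _
    rw [add_pow, MvPolynomial.coeff_sum, map_zero]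
    apply Finset.sum_eq_zero
    intro x _
    rw [one_pow, one_mul, mul_comm, ← map_natCast (MvPolynomial.C : ℚ →+* MvPolynomial σ ℚ),
        MvPolynomial.coeff_C_mul, MvPolynomial.coeff_X_pow, if_neg, mul_zero]
    intro h
    apply hm
    rw [← h]
    simp

lemma PolyFam_A {N : ℕ} {σ : Type*} : ∀ (M : ℕ) (e : Fin M → Fin N) (s : Fin M → σ),
    PolyFam N (fun k => A M (pw (fun i => k (e i))) (fun i => (1 + MvPolynomial.X (s i) :
      MvPolynomial σ ℚ)))
  | 0, e, s => by
    simp only [A_zero]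
    exact PolyFam.const 1
  | M + 1, e, s => by
    simp only [A_succ]
    unfold star
    apply PolyFam.sum
    intro p _
    apply PolyFam.mul
    · apply PolyFam.mul
      · apply PolyFam.mul
        · exact PolyFam.const _
        · exact PolyFam.pow_X (e 0) (s p)
      · exact PolyFam.const _
    · exact PolyFam_A M (fun i => e i.succ) (fun i => s (p.succAbove i))

lemma alphaN_poly (N : ℕ) : ∃ Q : MvPolynomial (Fin N) ℚ, ∀ k : Fin N → ℕ,
    alphaN N k = MvPolynomial.eval (fun i => (k i : ℚ)) Q :=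
  PolyFam_A N id id (idx N)

/-- A polynomial vanishing at all strictly increasing natural tuples is zero. -/
lemma poly_eq_zero {N : ℕ} (P : MvPolynomial (Fin N) ℚ)
    (h : ∀ k : Fin N → ℕ, StrictMono k → MvPolynomial.eval (fun i => (k i : ℚ)) P = 0) : P = 0 := by
  classical
  obtain ⟨D, hD⟩ : ∃ D : ℕ, ∀ i, MvPolynomial.degreeOf i P < D :=
    ⟨P.totalDegree + 1, fun i => Nat.lt_succ_of_le (MvPolynomial.degreeOf_le_totalDegree P i)⟩
  apply MvPolynomial.eq_zero_of_eval_zero_at_prod_finset P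
    (fun i : Fin N => (Finset.Ico ((i : ℕ) * D) (((i : ℕ) + 1) * D)).image (fun n : ℕ => (n : ℚ)))
  · intro i
    rw [Finset.card_image_of_injective _ Nat.cast_injective, Nat.card_Ico]
    have : ((i : ℕ) + 1) * D - (i : ℕ) * D = D := by
      rw [add_mul, one_mul]; omega
    rw [this]
    exact hD i
  · intro x hx
    simp only [Finset.mem_image, Finset.mem_Ico] at hx
    choose k hk1 hk2 using hx
    have : x = fun i => (k i : ℚ) := by funext i; exact (hk2 i).symm
    rw [this]
    apply h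
    intro i j hij
    have h1 := (hk1 i).2
    have h2 := (hk1 j).1
    have h3 : (i : ℕ) + 1 ≤ j := hij
    calc k i < ((i : ℕ) + 1) * D := h1
      _ ≤ (j : ℕ) * D := Nat.mul_le_mul_right _ h3
      _ ≤ k j := h2

/-- `IsMTPolynomial N Q`: the polynomial `Q` counts monotone triangles of order `N` at every
strictly increasing integer bottom row. -/
def IsMTPolynomial (N : ℕ) (Q : MvPolynomial (Fin N) ℚ) : Prop :=
  ∀ k : Fin N → ℤ, StrictMono k →
    MvPolynomial.eval (fun i => (k i : ℚ)) Q = (numMT N k : ℚ)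

lemma eval_aeval_eq {N : ℕ} (x : Fin N → ℚ) (g : Fin N → MvPolynomial (Fin N) ℚ)
    (Q : MvPolynomial (Fin N) ℚ) : MvPolynomial.eval x (MvPolynomial.aeval g Q) =
      MvPolynomial.eval (fun i => MvPolynomial.eval x (g i)) Q := by
  have h : (MvPolynomial.eval x).comp ((MvPolynomial.aeval g : MvPolynomial (Fin N) ℚ →ₐ[ℚ] _) :
      MvPolynomial (Fin N) ℚ →+* MvPolynomial (Fin N) ℚ) =
      MvPolynomial.eval (fun i => MvPolynomial.eval x (g i)) := by
    apply MvPolynomial.ringHom_ext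
    · intro r; simp [MvPolynomial.algebraMap_eq]
    · intro i; simp
  exact congrArg (fun φ : MvPolynomial (Fin N) ℚ →+* ℚ => φ Q) h

lemma isMTPolynomial_of_nat {N : ℕ} (Q : MvPolynomial (Fin N) ℚ)
    (hQ : ∀ k : Fin N → ℕ, StrictMono k → MvPolynomial.eval (fun i => (k i : ℚ)) Q =
      (numMT N (fun i => (k i : ℤ)) : ℚ)) : IsMTPolynomial N Q := by
  -- translation invariance of `Q`
  have htr : ∀ c : ℕ, MvPolynomial.aeval (fun i => (MvPolynomial.X i + MvPolynomial.C (c : ℚ) :
      MvPolynomial (Fin N) ℚ)) Q = Q := by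
    intro c
    rw [← sub_eq_zero]
    apply poly_eq_zero
    intro k hk
    rw [map_sub, sub_eq_zero]
    have h1 : MvPolynomial.eval (fun i => (k i : ℚ)) (MvPolynomial.aeval (fun i =>
        (MvPolynomial.X i + MvPolynomial.C (c : ℚ) : MvPolynomial (Fin N) ℚ)) Q) =
        MvPolynomial.eval (fun i => ((k i + c : ℕ) : ℚ)) Q := by
      rw [eval_aeval_eq]
      congr 2
      funext i
      simp
    rw [h1, hQ (fun i => k i + c) (fun i j hij => by have := hk hij; simp only; omega), hQ k hk]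
    have := numMT_add_const N (fun i => (k i : ℤ)) (c : ℤ)
    push_cast
    rw [this]
  intro k hk
  obtain ⟨c, hc⟩ : ∃ c : ℕ, ∀ i, 0 ≤ k i + c := by
    refine ⟨∑ i, (k i).natAbs, fun i => ?_⟩
    have : (k i).natAbs ≤ ∑ i, (k i).natAbs :=
      Finset.single_le_sum (f := fun i => (k i).natAbs) (fun _ _ => Nat.zero_le _)
        (Finset.mem_univ i)
    omega
  have h1 := hQ (fun i => (k i + c).toNat) (fun i j hij => by
    have := hk hij; have := hc i; have := hc j; simp only; omega)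
  have h2 : (fun i => (((k i + c).toNat : ℕ) : ℤ)) = fun i => k i + c := by
    funext i; exact Int.toNat_of_nonneg (hc i)
  rw [h2, numMT_add_const] at h1
  rw [← h1]
  conv_lhs => rw [← htr c]
  rw [eval_aeval_eq]
  congr 2
  funext i
  have h3 : (((k i + c).toNat : ℕ) : ℚ) = (((k i + c).toNat : ℤ) : ℚ) := by norm_cast
  rw [h3, Int.toNat_of_nonneg (hc i)]
  simp

end Pool.Agent.H37.VSASM
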