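import Pool.Agent.H37.VSASM.Lag

open Finset Polynomial

namespace Pool.Agent.H37.VSASM

variable {K : Type*} [Field K]

/-- `e_Z = ∏ (X - s(Z_i))` -/
noncomputable def eS {N : ℕ} (Z : Fin N → K) : K[X] := ∏ i, (X - C (sS (Z i)))

lemma eS_monic {N : ℕ} (Z : Fin N → K) : (eS Z).Monic := monic_prod_X_sub_C' _

lemma eS_natDegree {N : ℕ} (Z : Fin N → K) : (eS Z).natDegree = N := natDegree_prod_X_sub_C' _

lemma eS_succAbove {N : ℕ} (Z : Fin (N + 1) → K) (p : Fin (N + 1)) :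
    eS Z = (X - C (sS (Z p))) * eS (fun l => Z (p.succAbove l)) := by
  unfold eS
  rw [Fin.prod_univ_succAbove _ p]

/-- `V(Z) * H_{M,N}(e_Z)` -/
noncomputable def VH (M N : ℕ) (Z : Fin N → K) : K :=
  (Matrix.vandermonde Z).det * HH M N (eS Z)

lemma E_form (m N' : ℕ) (h : (N' + 1) / 2 = m) (Z : Fin (N' + 1) → K) (hZ : Gen Z) :
    VH (m + 1) (N' + 1) Z = (-1) ^ N' * star (fun x => x ^ (N' - m) * (1 - x) ^ (2 * m - N'))
      (fun y => (∏ i, ((1 - y i) * (y i)⁻¹)) * VH m N' y) Z := by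
  have hm : m ≤ N' := by omega
  have hm2 : N' ≤ 2 * m := by omega
  set Q := QQ (m + 1) (N' + 1) (eS Z) with hQ
  have hQd : Q.natDegree ≤ m := natDegree_QQ_le m (N' + 1) (by omega) _ (eS_monic Z)
    (eS_natDegree Z)
  have hQc : Q.coeff m = HH (m + 1) (N' + 1) (eS Z) := coeff_QQ m (N' + 1) h _ (eS_monic Z)
    (eS_natDegree Z)
  set f := Q * (X - C 1) ^ (N' - m) with hf
  have hX : ((X - C (1 : K)) ^ (N' - m)).natDegree = N' - m := by
    rw [natDegree_pow, natDegree_X_sub_C, mul_one]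
  have hfd : f.natDegree ≤ N' := by
    refine natDegree_mul_le.trans ?_
    rw [hX]; omega
  have hfc : f.coeff N' = HH (m + 1) (N' + 1) (eS Z) := by
    have h1 : N' = m + (N' - m) := by omega
    rw [hf]
    conv_lhs => rw [h1]
    rw [show m + (N' - m) - m = N' - m by omega]
    rw [coeff_mul_add_eq_of_natDegree_le hQd hX.le, hQc]
    have h2 : ((X - C (1 : K)) ^ (N' - m)).coeff (N' - m) = 1 := by
      have h3 : ((X - C (1 : K)) ^ (N' - m)).Monic := (monic_X_sub_C _).pow _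
      have := h3.coeff_natDegree
      rwa [hX] at this
    rw [h2, mul_one]
  have hlag := lag_coeff (fun i => tT (Z i)) hZ.tT_inj f hfd
  rw [hfc] at hlag
  unfold VH
  rw [hlag, Finset.mul_sum]
  unfold star
  rw [Finset.mul_sum]
  refine Finset.sum_congr rfl fun i _ => ?_
  rw [vandermonde_succAbove Z i]
  have h0 := hZ.ne_zero i
  have h1 := hZ.ne_one i
  have h1' : 1 - Z i ≠ 0 := sub_ne_zero.mpr h1.symm
  have hval : f.eval (tT (Z i)) = (Z i ^ 2 * (1 - Z i)⁻¹) ^ (N' - m) *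
      ((Z i * (1 - Z i)) ^ m * (∏ l, (sS (Z (i.succAbove l)) - uU (Z i))) *
        HH m N' (eS (fun l => Z (i.succAbove l)))) := by
    rw [hf, eval_mul, eval_pow, eval_sub, eval_X, eval_C, tT_sub_one _ h1, mul_comm, hQ,
      ← HH_eq_eval_QQ _ _ _ (eS_monic Z) (eS_natDegree Z), eS_succAbove Z i]
    congr 1
    have := P3 (m + 1) N' (by omega) (tT (Z i)) (sS (Z i)) (uU (Z i)) (link_sum _ h0 h1)
      (link_prod _ h0 h1) (hZ.ne_link i) (fun l => sS (Z (i.succAbove l)))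
    rw [one_sub_tT_mul _ h0 h1] at this
    exact this
  rw [hval]
  have hw : (Z i ^ 2 * (1 - Z i)⁻¹) ^ (N' - m) * (Z i * (1 - Z i)) ^ m =
      Z i ^ (N' - m) * (1 - Z i) ^ (2 * m - N') * Z i ^ N' := by
    have e1 : (1 - Z i) ^ m = (1 - Z i) ^ (N' - m) * (1 - Z i) ^ (2 * m - N') := by
      rw [← pow_add]; congr 1; omega
    have e2 : Z i ^ N' = Z i ^ (N' - m) * Z i ^ m := by
      rw [← pow_add]; congr 1; omega
    rw [mul_pow, mul_pow, e1, e2, inv_pow]
    field_simp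
    rw [← pow_mul, ← pow_mul, mul_comm]
  have hprod : (∏ l : Fin N', (Z (i.succAbove l) - Z i)) *
      ((∏ l : Fin N', (sS (Z (i.succAbove l)) - uU (Z i))) *
        (∏ l : Fin N', (tT (Z i) - tT (Z (i.succAbove l)))⁻¹)) =
      (-1) ^ N' * ((∏ l : Fin N', Pf (Z i) (Z (i.succAbove l))) *
        (∏ l : Fin N', ((1 - Z (i.succAbove l)) * (Z (i.succAbove l))⁻¹))) * (Z i ^ N')⁻¹ := by
    rw [← Finset.prod_mul_distrib, ← Finset.prod_mul_distrib, ← Finset.prod_mul_distrib]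
    have : ∀ l : Fin N', (Z (i.succAbove l) - Z i) * ((sS (Z (i.succAbove l)) - uU (Z i)) *
        (tT (Z i) - tT (Z (i.succAbove l)))⁻¹) =
        (-1) * (Pf (Z i) (Z (i.succAbove l)) * ((1 - Z (i.succAbove l)) *
          (Z (i.succAbove l))⁻¹)) * (Z i)⁻¹ := by
      intro l
      have hne : Z (i.succAbove l) ≠ Z i := fun h' => Fin.succAbove_ne i l (hZ.inj h')
      rw [ratio h0 h1 (hZ.ne_zero _) (hZ.ne_one _) hne.symm (hZ.add_ne_mul _ _)]
      have hd : Z (i.succAbove l) - Z i ≠ 0 := sub_ne_zero.mpr hne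
      field_simp
    rw [Finset.prod_congr rfl fun l _ => this l, Finset.prod_mul_distrib, Finset.prod_mul_distrib]
    simp
  have hZN : Z i ^ N' ≠ 0 := pow_ne_zero _ h0
  calc _ = (-1) ^ (i : ℕ) * ((Z i ^ 2 * (1 - Z i)⁻¹) ^ (N' - m) * (Z i * (1 - Z i)) ^ m) *
        ((∏ l : Fin N', (Z (i.succAbove l) - Z i)) *
      ((∏ l : Fin N', (sS (Z (i.succAbove l)) - uU (Z i))) *
        (∏ l : Fin N', (tT (Z i) - tT (Z (i.succAbove l)))⁻¹))) *
        ((Matrix.vandermonde (fun l => Z (i.succAbove l))).det *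
          HH m N' (eS (fun l => Z (i.succAbove l)))) := by ring
    _ = _ := by
      rw [hprod, hw]
      field_simp

end Pool.Agent.H37.VSASM
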