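import Pool.Agent.H37.VSASM.Bform
import Pool.Agent.H37.VSASM.Coeff

open Finset

namespace Pool.Agent.H37.VSASM

lemma Bup_form {K : Type*} [Field K] : ∀ (n : ℕ) (Z : Fin n → K) (_ : Gen Z),
    A n (pw (kUp n)) Z = (∏ i, Z i ^ (n + 1)) * GH n Z
  | 0, Z, _ => by
    simp [GH, HH]
  | m + 1, Z, hZ => by
    rw [A_succ, G_form m Z hZ]
    rw [prod_mul_star (fun x : K => x ^ (m + 1 + 1)) (fun x => (x ^ m)⁻¹)]
    apply star_congr
    · intro p
      have h0 := hZ.ne_zero p
      unfold pw kUp
      simp only [Fin.val_zero, zero_add, mul_one]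
      field_simp
      ring
    · intro p
      have h1 : A m (fun i => (pw (kUp (m + 1)) : Fin (m + 1) → K → K) i.succ)
          (fun l => Z (p.succAbove l)) =
          (∏ l, (Z (p.succAbove l)) ^ 2) * A m (pw (kUp m)) (fun l => Z (p.succAbove l)) := by
        rw [prod_mul_A (fun x : K => x ^ 2) (pw (kUp m)) (fun l => Z (p.succAbove l))]
        apply A_congr
        intro i j
        unfold pw kUp
        simp only [Fin.val_succ]
        rw [← pow_add]
        congr 1
        ring
      rw [h1, Bup_form m _ (hZ.succAbove p)]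
      rw [← mul_assoc, ← mul_assoc, ← Finset.prod_mul_distrib, ← Finset.prod_mul_distrib]
      congr 1
      refine Finset.prod_congr rfl fun l _ => ?_
      ring

/-- In power series, the coefficient at `idx N` of the Vandermonde times `g` is the constant
coefficient of `g`. -/
lemma coeff_vandermonde_mul (N : ℕ) (g : MvPowerSeries (Fin N) ℚ) :
    MvPowerSeries.coeff (idx N)
      ((Matrix.vandermonde (fun i : Fin N => (1 + MvPowerSeries.X i : MvPowerSeries (Fin N) ℚ))).det
        * g) = MvPowerSeries.constantCoeff g := by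
  classical
  have h1 : (Matrix.vandermonde (fun i : Fin N =>
      (1 + MvPowerSeries.X i : MvPowerSeries (Fin N) ℚ))).det =
      (Matrix.vandermonde (fun i : Fin N => (MvPowerSeries.X i : MvPowerSeries (Fin N) ℚ))).det := by
    rw [← Matrix.det_vandermonde_add (fun i : Fin N => (MvPowerSeries.X i :
      MvPowerSeries (Fin N) ℚ)) (1 : MvPowerSeries (Fin N) ℚ)]
    congr 2
    funext i
    exact add_comm _ _
  rw [h1, Matrix.det_apply, Finset.sum_mul, map_sum]
  rw [Finset.sum_eq_single (1 : Equiv.Perm (Fin N))]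
  · have h2 : (∏ i : Fin N, (Matrix.vandermonde (fun i : Fin N =>
        (MvPowerSeries.X i : MvPowerSeries (Fin N) ℚ))) ((1 : Equiv.Perm (Fin N)) i) i) =
        MvPowerSeries.monomial (idx N) 1 := by
      simp only [Matrix.vandermonde_apply, Equiv.Perm.one_apply]
      rw [MvPowerSeries.monomial_one_eq, Finsupp.prod_fintype]
      · simp [idx_apply]
      · intro i; simp
    rw [h2]
    simp only [Equiv.Perm.sign_one, one_smul]
    have := MvPowerSeries.coeff_add_monomial_mul (idx N) 0 g (1 : ℚ)
    rw [add_zero] at this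
    rw [this]
    simp
  · intro σ _ hσ
    set m : Fin N →₀ ℕ := Finsupp.equivFunOnFinite.symm (fun j => ((σ.symm j : Fin N) : ℕ)) with hm
    have h2 : (∏ i : Fin N, (Matrix.vandermonde (fun i : Fin N =>
        (MvPowerSeries.X i : MvPowerSeries (Fin N) ℚ))) (σ i) i) =
        MvPowerSeries.monomial m 1 := by
      simp only [Matrix.vandermonde_apply]
      rw [MvPowerSeries.monomial_one_eq, Finsupp.prod_fintype]
      · conv_rhs => rw [← Equiv.prod_comp σ]
        simp [hm]
      · intro i; simp
    rw [h2, Units.smul_def, zsmul_eq_mul, mul_assoc]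
    have h3 : MvPowerSeries.coeff (idx N) (MvPowerSeries.monomial m (1 : ℚ) * g) = 0 := by
      rw [MvPowerSeries.coeff_monomial_mul, if_neg]
      intro hle
      apply hσ
      have h4 : ∀ j, ((σ.symm j : Fin N) : ℕ) ≤ (j : ℕ) := by
        intro j
        have := hle j
        rwa [idx_apply, hm, Finsupp.equivFunOnFinite_symm_apply_apply] at this
      have h5 : ∑ j : Fin N, ((σ.symm j : Fin N) : ℕ) = ∑ j : Fin N, (j : ℕ) :=
        Equiv.sum_comp σ.symm (fun j : Fin N => (j : ℕ))
      have h6 := (Finset.sum_eq_sum_iff_of_le (fun j _ => h4 j)).mp h5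
      ext j
      have h7 := h6 (σ j) (Finset.mem_univ _)
      rw [Equiv.symm_apply_apply] at h7
      simp [h7]
    have h8 : ((((Equiv.Perm.sign σ : ℤˣ) : ℤ) : MvPowerSeries (Fin N) ℚ)) =
        MvPowerSeries.C (((Equiv.Perm.sign σ : ℤˣ) : ℤ) : ℚ) := by simp
    rw [h8, MvPowerSeries.coeff_C_mul, h3, mul_zero]
  · intro h; exact absurd (Finset.mem_univ _) h

section series

/-- the power series ring -/
abbrev FF (N : ℕ) : Type := MvPowerSeries (Fin N) ℚ

/-- the variables `1 + X_i` as power series -/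
noncomputable def zF (N : ℕ) (i : Fin N) : FF N := 1 + MvPowerSeries.X i

lemma zF_const (N : ℕ) (i : Fin N) : MvPowerSeries.constantCoeff (zF N i) = 1 := by
  simp [zF]

/-- `s(1 + X_i)` as a power series -/
noncomputable def sF (N : ℕ) (i : Fin N) : FF N := zF N i + (zF N i)⁻¹ - 1

lemma sF_const (N : ℕ) (i : Fin N) : MvPowerSeries.constantCoeff (sF N i) = 1 := by
  simp [sF, zF_const]

lemma zF_mul_inv (N : ℕ) (i : Fin N) : zF N i * (zF N i)⁻¹ = 1 :=
  MvPowerSeries.mul_inv_cancel _ (by rw [zF_const]; exact one_ne_zero)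

variable (N : ℕ)

/-- the field -/
abbrev KK : Type := FractionRing (FF N)

/-- the variables in the field -/
noncomputable def zK (i : Fin N) : KK N := algebraMap (FF N) (KK N) (zF N i)

lemma algMap_inj : Function.Injective (algebraMap (FF N) (KK N)) :=
  IsFractionRing.injective (FF N) (KK N)

lemma sS_zK (i : Fin N) : sS (zK N i) = algebraMap (FF N) (KK N) (sF N i) := by
  have h1 : zK N i * algebraMap (FF N) (KK N) ((zF N i)⁻¹) = 1 := by
    unfold zK
    rw [← map_mul, zF_mul_inv, map_one]
  have h2 : (zK N i)⁻¹ = algebraMap (FF N) (KK N) ((zF N i)⁻¹) := inv_eq_of_mul_eq_one_right h1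
  unfold sS sF
  rw [h2, map_sub, map_add, map_one]
  rfl

lemma ne_of_const {f g : FF N} (h : MvPowerSeries.constantCoeff f ≠ MvPowerSeries.constantCoeff g) :
    algebraMap (FF N) (KK N) f ≠ algebraMap (FF N) (KK N) g := by
  intro h1
  exact h (by rw [algMap_inj N h1])

lemma zK_ne_zero (i : Fin N) : zK N i ≠ 0 := by
  have := ne_of_const N (f := zF N i) (g := 0) (by rw [zF_const]; simp)
  rwa [map_zero] at this

lemma zK_ne_one (i : Fin N) : zK N i ≠ 1 := by
  intro h
  have h1 : algebraMap (FF N) (KK N) (zF N i) = algebraMap (FF N) (KK N) 1 := by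
    rw [map_one]; exact h
  have h2 := algMap_inj N h1
  unfold zF at h2
  have h3 : (MvPowerSeries.X i : FF N) = 0 := by linear_combination h2
  have h4 := congrArg (MvPowerSeries.coeff (Finsupp.single i 1)) h3
  simp [MvPowerSeries.coeff_X] at h4

lemma gen_zK : Gen (zK N) where
  inj := by
    intro i j h
    have h1 := algMap_inj N h
    unfold zF at h1
    exact MvPowerSeries.X_inj.mp (add_left_cancel h1)
  ne_zero := zK_ne_zero N
  ne_one := zK_ne_one N
  ne_link := by
    intro i h
    have h0 := zK_ne_zero N i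
    have h1 := zK_ne_one N i
    have h2 : 1 - zK N i ≠ 0 := sub_ne_zero.mpr h1.symm
    unfold tT sS at h
    have h3 : 2 * zK N i ^ 3 - 3 * zK N i ^ 2 + 3 * zK N i - 1 = 0 := by
      field_simp at h
      linear_combination h
    have h4 := ne_of_const N (f := 2 * zF N i ^ 3 - 3 * zF N i ^ 2 + 3 * zF N i - 1) (g := 0)
      (by simp only [map_sub, map_add, map_mul, map_pow, zF_const, map_one, map_ofNat, map_zero]
          norm_num)
    apply h4
    rw [map_zero, ← h3]
    unfold zK
    simp only [map_sub, map_add, map_mul, map_pow, map_one, map_ofNat]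
  add_ne_mul := by
    intro i j
    have := ne_of_const N (f := zF N i + zF N j) (g := zF N i * zF N j)
      (by simp only [map_add, map_mul, zF_const]; norm_num)
    rwa [map_add, map_mul] at this

lemma eS_zK : eS (zK N) =
    (∏ i, (Polynomial.X - Polynomial.C (sF N i))).map (algebraMap (FF N) (KK N)) := by
  unfold eS
  simp only [sS_zK, Polynomial.map_prod, Polynomial.map_sub, Polynomial.map_X, Polynomial.map_C]

lemma vdm_zK : (Matrix.vandermonde (zK N)).det =
    algebraMap (FF N) (KK N) (Matrix.vandermonde (zF N)).det := by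
  rw [Matrix.det_vandermonde, Matrix.det_vandermonde, map_prod]
  simp only [map_prod, map_sub]
  rfl

/-- From an identity in the power series ring to `alphaN`. -/
lemma alphaN_eq_const (k : Fin N → ℕ) (g : FF N)
    (h : A N (pw k) (zF N) = (Matrix.vandermonde (zF N)).det * g) :
    alphaN N k = MvPowerSeries.constantCoeff g := by
  have h1 : ((Apoly N k : MvPolynomial (Fin N) ℚ) : FF N) = A N (pw k) (zF N) := by
    unfold Apoly
    have := A_pw_map (MvPolynomial.coeToMvPowerSeries.ringHom (σ := Fin N) (R := ℚ)) k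
      (fun i => 1 + MvPolynomial.X i)
    rw [MvPolynomial.coeToMvPowerSeries.ringHom_apply] at this
    rw [this]
    congr 1
    funext i
    rw [map_add, map_one]
    simp [zF]
  unfold alphaN
  rw [← MvPolynomial.coeff_coe, h1, h]
  exact coeff_vandermonde_mul N g

lemma HH_const (M M' : ℕ) (e : Polynomial (FF N)) (he : e.Monic) :
    MvPowerSeries.constantCoeff (HH M M' e) =
      HH M M' (e.map (MvPowerSeries.constantCoeff (σ := Fin N) (R := ℚ))) :=
  HH_map _ _ _ _ he

end series

lemma alphaN_kDown (n : ℕ) :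
    alphaN (2 * n) (kDown n) =
      HH n (2 * n) ((Polynomial.X - Polynomial.C (1 : ℚ)) ^ (2 * n)) := by
  have h := B_form n (zK (2 * n)) (gen_zK (2 * n))
  unfold VH at h
  rw [eS_zK, ← HH_map _ _ _ _ (monic_prod_X_sub_C' _), vdm_zK] at h
  have h2 : A (2 * n) (pw (kDown n)) (zK (2 * n)) =
      algebraMap (FF (2 * n)) (KK (2 * n)) (A (2 * n) (pw (kDown n)) (zF (2 * n))) :=
    (A_pw_map (algebraMap (FF (2 * n)) (KK (2 * n))) (kDown n) (zF (2 * n))).symm
  have h3 : (∏ i, zK (2 * n) i ^ (n + 1)) =
      algebraMap (FF (2 * n)) (KK (2 * n)) (∏ i, zF (2 * n) i ^ (n + 1)) := by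
    rw [map_prod]
    simp only [map_pow]
    rfl
  rw [h2, h3, ← map_mul, ← map_mul] at h
  have h4 := algMap_inj (2 * n) h
  rw [alphaN_eq_const (2 * n) (kDown n) ((∏ i, zF (2 * n) i ^ (n + 1)) *
    HH n (2 * n) (∏ i, (Polynomial.X - Polynomial.C (sF (2 * n) i)))) (by rw [h4]; ring)]
  rw [map_mul, HH_const _ _ _ _ (monic_prod_X_sub_C' _), map_prod]
  simp only [map_pow, zF_const, one_pow, Finset.prod_const_one, one_mul, Polynomial.map_prod,
    Polynomial.map_sub, Polynomial.map_X, Polynomial.map_C, sF_const]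
  simp

lemma alphaN_kUp (n : ℕ) :
    alphaN n (kUp n) =
      HH n (2 * n) ((Polynomial.X - Polynomial.C (1 : ℚ)) ^ (2 * n)) := by
  have h := Bup_form n (zK n) (gen_zK n)
  unfold GH at h
  have hmon : ((∏ i, (Polynomial.X - Polynomial.C (sF n i))) *
      (Polynomial.X - Polynomial.C 1) ^ n).Monic :=
    (monic_prod_X_sub_C' _).mul ((Polynomial.monic_X_sub_C _).pow _)
  have h1 : eS (zK n) * (Polynomial.X - Polynomial.C 1) ^ n =
      ((∏ i, (Polynomial.X - Polynomial.C (sF n i))) *
        (Polynomial.X - Polynomial.C 1) ^ n).map (algebraMap (FF n) (KK n)) := by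
    rw [eS_zK, Polynomial.map_mul]
    congr 1
    simp
  rw [h1, ← HH_map _ _ _ _ hmon, vdm_zK] at h
  have h2 : A n (pw (kUp n)) (zK n) =
      algebraMap (FF n) (KK n) (A n (pw (kUp n)) (zF n)) :=
    (A_pw_map (algebraMap (FF n) (KK n)) (kUp n) (zF n)).symm
  have h3 : (∏ i, zK n i ^ (n + 1)) =
      algebraMap (FF n) (KK n) (∏ i, zF n i ^ (n + 1)) := by
    rw [map_prod]
    simp only [map_pow]
    rfl
  rw [h2, h3, ← map_mul, ← map_mul] at h
  have h4 := algMap_inj n h
  rw [alphaN_eq_const n (kUp n) ((∏ i, zF n i ^ (n + 1)) *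
    HH n (2 * n) ((∏ i, (Polynomial.X - Polynomial.C (sF n i))) *
      (Polynomial.X - Polynomial.C 1) ^ n)) (by rw [h4]; ring)]
  rw [map_mul, HH_const _ _ _ _ hmon, map_prod]
  simp only [map_pow, zF_const, one_pow, Finset.prod_const_one, one_mul, Polynomial.map_prod,
    Polynomial.map_sub, Polynomial.map_X, Polynomial.map_C, sF_const, Polynomial.map_mul,
    Polynomial.map_pow, map_one, Polynomial.map_one, Finset.prod_const, Finset.card_univ,
    Fintype.card_fin]
  rw [two_mul, pow_add]

end Pool.Agent.H37.VSASM
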