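import Mathlib

open Finset

namespace Pool.Agent.H37.VSASM

variable {R : Type*} [CommRing R]

/-- The polynomial `P(x,y) = 1 - x + x y`. -/
def Pf (x y : R) : R := 1 - x + x * y

/-- `star w f` inserts a new variable with weight `w` in front. -/
def star {N : ℕ} (w : R → R) (f : (Fin N → R) → R) (z : Fin (N + 1) → R) : R :=
  ∑ p : Fin (N + 1), (-1) ^ (p : ℕ) * w (z p) * (∏ l : Fin N, Pf (z p) (z (p.succAbove l))) *
    f (fun l => z (p.succAbove l))

/-- Antisymmetric double sums vanish. -/
lemma double_sum_eq_zero {N : ℕ} (G : Fin (N + 2) → Fin (N + 1) → R)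
    (hG : ∀ p q, G (p.succAbove q) (q.predAbove p) = G p q) :
    ∑ p : Fin (N + 2), ∑ q : Fin (N + 1), (-1) ^ ((p : ℕ) + (q : ℕ)) * G p q = 0 := by
  rw [← Finset.sum_product']
  apply Finset.sum_involution (fun (a : Fin (N + 2) × Fin (N + 1)) _ =>
    ((a.1.succAbove a.2, a.2.predAbove a.1) : Fin (N + 2) × Fin (N + 1)))
  · rintro ⟨p, q⟩ _
    simp only [hG, Fin.neg_one_pow_succAbove_add_predAbove]
    ring
  · rintro ⟨p, q⟩ _ _ h
    simp only [Prod.mk.injEq] at h
    exact Fin.succAbove_ne _ _ h.1
  · intro a _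
    simp
  · rintro ⟨p, q⟩ _
    simp only [Fin.succAbove_succAbove_predAbove, Fin.predAbove_predAbove_succAbove]

/-- The double star as a double sum. -/
lemma star_star {N : ℕ} (w w' : R → R) (f : (Fin N → R) → R) (z : Fin (N + 2) → R) :
    star w (star w' f) z = ∑ p : Fin (N + 2), ∑ q : Fin (N + 1), (-1) ^ ((p : ℕ) + (q : ℕ)) *
      ((w (z p) * w' (z (p.succAbove q)) * Pf (z p) (z (p.succAbove q))) *
        (∏ l : Fin N, (Pf (z p) (z (p.succAbove (q.succAbove l))) *
          Pf (z (p.succAbove q)) (z (p.succAbove (q.succAbove l))))) *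
        f (fun l => z (p.succAbove (q.succAbove l)))) := by
  unfold star
  refine Finset.sum_congr rfl fun p _ => ?_
  rw [Finset.mul_sum]
  refine Finset.sum_congr rfl fun q _ => ?_
  rw [Fin.prod_univ_succAbove _ q, Finset.prod_mul_distrib, pow_add]
  ring

/-- Two double stars with weights `w₁ ⊗ w₁'` agree if the difference of the weights times `P` is
symmetric. We state it for finite families of weights. -/
lemma sum_star_star_eq_zero {ι : Type*} (s : Finset ι) {N : ℕ} (c : ι → R) (w w' : ι → R → R)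
    (f : (Fin N → R) → R) (z : Fin (N + 2) → R)
    (h : ∀ i j : Fin (N + 2), i ≠ j →
      (∑ a ∈ s, c a * (w a (z i) * w' a (z j))) * Pf (z i) (z j) =
      (∑ a ∈ s, c a * (w a (z j) * w' a (z i))) * Pf (z j) (z i)) :
    ∑ a ∈ s, c a * star (w a) (star (w' a) f) z = 0 := by
  have key : ∑ a ∈ s, c a * star (w a) (star (w' a) f) z =
      ∑ p : Fin (N + 2), ∑ q : Fin (N + 1), (-1) ^ ((p : ℕ) + (q : ℕ)) *
      (((∑ a ∈ s, c a * (w a (z p) * w' a (z (p.succAbove q)))) * Pf (z p) (z (p.succAbove q))) *
        (∏ l : Fin N, (Pf (z p) (z (p.succAbove (q.succAbove l))) *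
          Pf (z (p.succAbove q)) (z (p.succAbove (q.succAbove l))))) *
        f (fun l => z (p.succAbove (q.succAbove l)))) := by
    simp only [star_star, Finset.mul_sum, Finset.sum_mul]
    rw [Finset.sum_comm]
    refine Finset.sum_congr rfl fun p _ => ?_
    rw [Finset.sum_comm]
    refine Finset.sum_congr rfl fun q _ => ?_
    refine Finset.sum_congr rfl fun a _ => ?_
    ring
  rw [key]
  apply double_sum_eq_zero
  intro p q
  simp only [Fin.succAbove_succAbove_predAbove, Fin.succAbove_succAbove_succAbove_predAbove]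
  rw [h (p.succAbove q) p (Fin.succAbove_ne p q)]
  congr 2
  refine Finset.prod_congr rfl fun l _ => ?_
  ring

/-- Two-term version. -/
lemma star_star_eq {N : ℕ} (w₁ w₁' w₂ w₂' : R → R) (f : (Fin N → R) → R) (z : Fin (N + 2) → R)
    (h : ∀ i j : Fin (N + 2), i ≠ j →
      (w₁ (z i) * w₁' (z j) - w₂ (z i) * w₂' (z j)) * Pf (z i) (z j) =
      (w₁ (z j) * w₁' (z i) - w₂ (z j) * w₂' (z i)) * Pf (z j) (z i)) :
    star w₁ (star w₁' f) z = star w₂ (star w₂' f) z := by
  have := sum_star_star_eq_zero (Finset.univ : Finset (Fin 2)) ![1, -1] ![w₁, w₂] ![w₁', w₂'] f z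
    (by
      intro i j hij
      simp only [Fin.sum_univ_two, Matrix.cons_val_zero, Matrix.cons_val_one]
      have := h i j hij
      linear_combination this)
  simp only [Fin.sum_univ_two, Matrix.cons_val_zero, Matrix.cons_val_one] at this
  linear_combination this

/-- Multiplying through by a function of the variables. -/
lemma prod_mul_star {N : ℕ} (g : R → R) (w : R → R) (f : (Fin N → R) → R) (z : Fin (N + 1) → R) :
    (∏ i, g (z i)) * star w f z =
      star (fun x => g x * w x) (fun y => (∏ i, g (y i)) * f y) z := by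
  unfold star
  rw [Finset.mul_sum]
  refine Finset.sum_congr rfl fun p _ => ?_
  rw [Fin.prod_univ_succAbove _ p]
  ring

lemma star_congr {N : ℕ} {w w' : R → R} {f f' : (Fin N → R) → R} {z : Fin (N + 1) → R}
    (hw : ∀ p, w (z p) = w' (z p)) (hf : ∀ p : Fin (N + 1), f (fun l => z (p.succAbove l)) =
      f' (fun l => z (p.succAbove l))) : star w f z = star w' f' z := by
  unfold star
  refine Finset.sum_congr rfl fun p _ => ?_
  rw [hw, hf]

lemma star_add_left {N : ℕ} (w w' : R → R) (f : (Fin N → R) → R) (z : Fin (N + 1) → R) :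
    star (fun x => w x + w' x) f z = star w f z + star w' f z := by
  unfold star
  rw [← Finset.sum_add_distrib]
  exact Finset.sum_congr rfl fun p _ => by ring

lemma star_sub_left {N : ℕ} (w w' : R → R) (f : (Fin N → R) → R) (z : Fin (N + 1) → R) :
    star (fun x => w x - w' x) f z = star w f z - star w' f z := by
  unfold star
  rw [← Finset.sum_sub_distrib]
  exact Finset.sum_congr rfl fun p _ => by ring

lemma star_smul_left {N : ℕ} (c : R) (w : R → R) (f : (Fin N → R) → R) (z : Fin (N + 1) → R) :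
    star (fun x => c * w x) f z = c * star w f z := by
  unfold star
  rw [Finset.mul_sum]
  exact Finset.sum_congr rfl fun p _ => by ring

lemma star_add_right {N : ℕ} (w : R → R) (f f' : (Fin N → R) → R) (z : Fin (N + 1) → R) :
    star w (fun y => f y + f' y) z = star w f z + star w f' z := by
  unfold star
  rw [← Finset.sum_add_distrib]
  exact Finset.sum_congr rfl fun p _ => by ring

lemma star_smul_right {N : ℕ} (c : R) (w : R → R) (f : (Fin N → R) → R) (z : Fin (N + 1) → R) :
    star w (fun y => c * f y) z = c * star w f z := by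
  unfold star
  rw [Finset.mul_sum]
  exact Finset.sum_congr rfl fun p _ => by ring

lemma star_sub_right {N : ℕ} (w : R → R) (f f' : (Fin N → R) → R) (z : Fin (N + 1) → R) :
    star w (fun y => f y - f' y) z = star w f z - star w f' z := by
  unfold star
  rw [← Finset.sum_sub_distrib]
  exact Finset.sum_congr rfl fun p _ => by ring

lemma star_sum_left {N : ℕ} {ι : Type*} (s : Finset ι) (w : ι → R → R) (f : (Fin N → R) → R)
    (z : Fin (N + 1) → R) :
    star (fun x => ∑ a ∈ s, w a x) f z = ∑ a ∈ s, star (w a) f z := by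
  unfold star
  rw [Finset.sum_comm]
  refine Finset.sum_congr rfl fun p _ => ?_
  simp only [Finset.mul_sum, Finset.sum_mul]

lemma star_sum_right {N : ℕ} {ι : Type*} (s : Finset ι) (w : R → R) (f : ι → (Fin N → R) → R)
    (z : Fin (N + 1) → R) :
    star w (fun y => ∑ a ∈ s, f a y) z = ∑ a ∈ s, star w (f a) z := by
  unfold star
  rw [Finset.sum_comm]
  refine Finset.sum_congr rfl fun p _ => ?_
  simp only [Finset.mul_sum]

/-- The iterated star: the antisymmetriser `∑ sgn σ ∏ w_i(z_σi) ∏_{i<j} P(z_σi, z_σj)`. -/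
def A : (N : ℕ) → (Fin N → R → R) → (Fin N → R) → R
  | 0, _, _ => 1
  | N + 1, w, z => star (w 0) (A N (fun i => w i.succ)) z

@[simp] lemma A_zero (w : Fin 0 → R → R) (z : Fin 0 → R) : A 0 w z = 1 := rfl

lemma A_succ {N : ℕ} (w : Fin (N + 1) → R → R) (z : Fin (N + 1) → R) :
    A (N + 1) w z = star (w 0) (A N (fun i => w i.succ)) z := rfl

end Pool.Agent.H37.VSASM
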