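import Pool.Agent.H37.VSASM.Link
import Pool.Agent.H37.VSASM.Star

open Finset Polynomial

namespace Pool.Agent.H37.VSASM

lemma prod_erase_succAbove {M : Type*} [CommMonoid M] {N : ℕ} (i : Fin (N + 1))
    (f : Fin (N + 1) → M) :
    ∏ j ∈ (Finset.univ : Finset (Fin (N + 1))).erase i, f j = ∏ l : Fin N, f (i.succAbove l) := by
  rw [Finset.erase_eq, ← Finset.compl_eq_univ_sdiff, ← Fin.image_succAbove_univ,
    Finset.prod_image]
  intro a _ b _ h
  exact Fin.succAbove_right_injective h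

lemma lag_coeff {K : Type*} [Field K] {N : ℕ} (v : Fin (N + 1) → K) (hv : Function.Injective v)
    (P : K[X]) (hP : P.natDegree ≤ N) :
    P.coeff N = ∑ i, P.eval (v i) * ∏ l : Fin N, (v i - v (i.succAbove l))⁻¹ := by
  have h := Lagrange.coeff_eq_sum (s := (Finset.univ : Finset (Fin (N + 1)))) (v := v)
    hv.injOn (P := P) (by
      rw [Finset.card_fin]
      exact lt_of_le_of_lt degree_le_natDegree (by exact_mod_cast Nat.lt_succ_of_le hP))
  rw [Finset.card_fin, Nat.add_sub_cancel] at h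
  rw [h]
  refine Finset.sum_congr rfl fun i _ => ?_
  rw [prod_erase_succAbove, div_eq_mul_inv, Finset.prod_inv_distrib]

lemma lag_eval {K : Type*} [Field K] {N : ℕ} (v : Fin (N + 1) → K) (hv : Function.Injective v)
    (P : K[X]) (hP : P.natDegree ≤ N) (y : K) :
    P.eval y = ∑ i, P.eval (v i) * ∏ l : Fin N, ((v i - v (i.succAbove l))⁻¹ *
      (y - v (i.succAbove l))) := by
  have h := Lagrange.eq_interpolate (s := (Finset.univ : Finset (Fin (N + 1)))) (v := v)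
    (f := P) hv.injOn (by
      rw [Finset.card_fin]
      exact lt_of_le_of_lt degree_le_natDegree (by exact_mod_cast Nat.lt_succ_of_le hP))
  conv_lhs => rw [h]
  rw [Lagrange.interpolate_apply, eval_finsetSum]
  refine Finset.sum_congr rfl fun i _ => ?_
  rw [eval_mul, eval_C, Lagrange.basis, eval_prod, prod_erase_succAbove]
  congr 1
  refine Finset.prod_congr rfl fun l _ => ?_
  simp [Lagrange.basisDivisor]

lemma vandermonde_succAbove {R : Type*} [CommRing R] {N : ℕ} (Z : Fin (N + 1) → R)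
    (p : Fin (N + 1)) : (Matrix.vandermonde Z).det =
      (-1) ^ (p : ℕ) * (∏ l : Fin N, (Z (p.succAbove l) - Z p)) *
        (Matrix.vandermonde (fun l => Z (p.succAbove l))).det := by
  have h1 := det_vandermonde_cons (Z p) (fun l => Z (p.succAbove l))
  have h2 : (Fin.cons (Z p) (fun l => Z (p.succAbove l)) : Fin (N + 1) → R) =
      fun i => Z (p.cycleRange.symm i) := by
    funext i
    refine Fin.cases ?_ (fun i => ?_) i
    · simp
    · simp
  have h3 : Matrix.vandermonde (fun i => Z (p.cycleRange.symm i)) =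
      (Matrix.vandermonde Z).submatrix (p.cycleRange.symm) id := by
    ext i j
    simp [Matrix.vandermonde_apply]
  rw [h2, h3, Matrix.det_permute] at h1
  rw [mul_assoc, ← h1, Equiv.Perm.sign_symm, Fin.sign_cycleRange]
  have h4 : ((-1 : R) ^ (p : ℕ)) * (-1) ^ (p : ℕ) = 1 := by
    rw [← mul_pow]; simp
  push_cast
  rw [← mul_assoc, h4, one_mul]

/-- the link lemma, indexed by a finite type -/
lemma P3' {R : Type*} [CommRing R] [IsDomain R] (M N : ℕ) (hN : N + 2 ≤ 2 * M)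
    (s s' s'' : R) (h1 : s + s' + s'' = 0) (h2 : s * s' + s * s'' + s' * s'' = s * s' * s'')
    (hne : s ≠ s') {ι : Type*} [Fintype ι] (hι : Fintype.card ι = N) (S : ι → R) :
    HH M (N + 2) ((X - C s) * ((X - C s') * ∏ i, (X - C (S i)))) =
      ((1 - s) * (1 - s')) ^ (M - 1) * (∏ i, (S i - s'')) *
        HH (M - 1) N (∏ i, (X - C (S i))) := by
  subst hι
  have e := (Fintype.equivFin ι).symm
  have h := P3 M (Fintype.card ι) hN s s' s'' h1 h2 hne (fun i => S (e i))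
  rw [Equiv.prod_comp e (fun i => (X - C (S i))), Equiv.prod_comp e (fun i => (S i - s''))] at h
  exact h

section field

variable {K : Type*} [Field K]

/-- `s(x) = x + 1/x - 1` -/
def sS (x : K) : K := x + x⁻¹ - 1
/-- `t(x) = s(1/(1-x))` -/
def tT (x : K) : K := (1 - x)⁻¹ - x
/-- `u(x) = s(1-1/x)` -/
def uU (x : K) : K := x * (x - 1)⁻¹ - x⁻¹

lemma link_sum (x : K) (h0 : x ≠ 0) (h1 : x ≠ 1) : tT x + sS x + uU x = 0 := by
  have h2 : 1 - x ≠ 0 := sub_ne_zero.mpr h1.symm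
  have h3 : x - 1 ≠ 0 := sub_ne_zero.mpr h1
  unfold tT sS uU
  have h4 : (1 - x)⁻¹ = - (x - 1)⁻¹ := by
    rw [← inv_neg, neg_sub]
  rw [h4]
  field_simp
  ring

lemma link_prod (x : K) (h0 : x ≠ 0) (h1 : x ≠ 1) :
    tT x * sS x + tT x * uU x + sS x * uU x = tT x * sS x * uU x := by
  have h2 : 1 - x ≠ 0 := sub_ne_zero.mpr h1.symm
  have h3 : x - 1 ≠ 0 := sub_ne_zero.mpr h1
  unfold tT sS uU
  have h4 : (1 - x)⁻¹ = - (x - 1)⁻¹ := by
    rw [← inv_neg, neg_sub]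
  rw [h4]
  field_simp
  ring

lemma one_sub_sS (x : K) (h0 : x ≠ 0) : 1 - sS x = - ((1 - x) ^ 2 * x⁻¹) := by
  unfold sS
  field_simp
  ring

lemma tT_sub_one (x : K) (h1 : x ≠ 1) : tT x - 1 = x ^ 2 * (1 - x)⁻¹ := by
  have h2 : 1 - x ≠ 0 := sub_ne_zero.mpr h1.symm
  unfold tT
  field_simp
  ring

lemma one_sub_tT_mul (x : K) (h0 : x ≠ 0) (h1 : x ≠ 1) :
    (1 - tT x) * (1 - sS x) = x * (1 - x) := by
  have h2 : 1 - x ≠ 0 := sub_ne_zero.mpr h1.symm
  unfold tT sS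
  field_simp
  ring

lemma one_sub_uU (x : K) (h0 : x ≠ 0) (h1 : x ≠ 1) :
    (x * (1 - x)) * (1 - uU x) = 1 := by
  have h3 : x - 1 ≠ 0 := sub_ne_zero.mpr h1
  unfold uU
  field_simp
  ring

lemma tT_sub_tT (x y : K) (hx1 : x ≠ 1) (hy1 : y ≠ 1) :
    tT x - tT y = (y - x) * (x * y - x - y) * ((1 - x)⁻¹ * (1 - y)⁻¹) := by
  have h2 : 1 - x ≠ 0 := sub_ne_zero.mpr hx1.symm
  have h3 : 1 - y ≠ 0 := sub_ne_zero.mpr hy1.symm
  unfold tT
  field_simp
  ring

lemma sS_sub_uU (x y : K) (hx0 : x ≠ 0) (hx1 : x ≠ 1) (hy0 : y ≠ 0) :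
    sS y - uU x = Pf x y * (x + y - x * y) * (x⁻¹ * y⁻¹ * (1 - x)⁻¹) := by
  have h2 : 1 - x ≠ 0 := sub_ne_zero.mpr hx1.symm
  have h3 : x - 1 ≠ 0 := sub_ne_zero.mpr hx1
  unfold sS uU Pf
  have h4 : (x - 1)⁻¹ = - (1 - x)⁻¹ := by
    rw [← inv_neg, neg_sub]
  rw [h4]
  field_simp
  ring

/-- genericity of a tuple of variables -/
structure Gen {N : ℕ} (Z : Fin N → K) : Prop where
  inj : Function.Injective Z
  ne_zero : ∀ i, Z i ≠ 0
  ne_one : ∀ i, Z i ≠ 1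
  ne_link : ∀ i, tT (Z i) ≠ sS (Z i)
  add_ne_mul : ∀ i j, Z i + Z j ≠ Z i * Z j

lemma Gen.comp {N M : ℕ} {Z : Fin N → K} (hZ : Gen Z) (e : Fin M → Fin N)
    (he : Function.Injective e) : Gen (fun i => Z (e i)) :=
  ⟨hZ.inj.comp he, fun _ => hZ.ne_zero _, fun _ => hZ.ne_one _, fun _ => hZ.ne_link _,
    fun _ _ => hZ.add_ne_mul _ _⟩

lemma Gen.succAbove {N : ℕ} {Z : Fin (N + 1) → K} (hZ : Gen Z) (p : Fin (N + 1)) :
    Gen (fun l => Z (p.succAbove l)) :=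
  hZ.comp _ Fin.succAbove_right_injective

lemma Gen.tT_ne {N : ℕ} {Z : Fin N → K} (hZ : Gen Z) {i j : Fin N} (hij : i ≠ j) :
    tT (Z i) - tT (Z j) ≠ 0 := by
  rw [tT_sub_tT _ _ (hZ.ne_one i) (hZ.ne_one j)]
  have h1 : Z j - Z i ≠ 0 := sub_ne_zero.mpr fun h => hij (hZ.inj h).symm
  have h2 : Z i * Z j - Z i - Z j ≠ 0 := by
    intro h
    exact hZ.add_ne_mul i j (by linear_combination -h)
  have h3 : 1 - Z i ≠ 0 := sub_ne_zero.mpr (hZ.ne_one i).symm
  have h4 : 1 - Z j ≠ 0 := sub_ne_zero.mpr (hZ.ne_one j).symm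
  exact mul_ne_zero (mul_ne_zero h1 h2) (mul_ne_zero (inv_ne_zero h3) (inv_ne_zero h4))

lemma Gen.tT_inj {N : ℕ} {Z : Fin N → K} (hZ : Gen Z) :
    Function.Injective (fun i => tT (Z i)) := by
  intro i j h
  by_contra hij
  exact hZ.tT_ne hij (sub_eq_zero.mpr h)

lemma ratio {x y : K} (hx0 : x ≠ 0) (hx1 : x ≠ 1) (hy0 : y ≠ 0) (hy1 : y ≠ 1) (hxy : x ≠ y)
    (h : x + y ≠ x * y) : (sS y - uU x) * (tT x - tT y)⁻¹ =
      - (Pf x y * ((1 - y) * y⁻¹) * x⁻¹ * (y - x)⁻¹) := by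
  rw [sS_sub_uU x y hx0 hx1 hy0, tT_sub_tT x y hx1 hy1]
  have h2 : 1 - x ≠ 0 := sub_ne_zero.mpr hx1.symm
  have h3 : 1 - y ≠ 0 := sub_ne_zero.mpr hy1.symm
  have h4 : y - x ≠ 0 := sub_ne_zero.mpr hxy.symm
  have h5 : x * y - x - y ≠ 0 := fun h' => h (by linear_combination -h')
  have h6 : x + y - x * y = -(x * y - x - y) := by ring
  rw [h6]
  generalize x * y - x - y = d at *
  field_simp

end field

end Pool.Agent.H37.VSASM
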