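import Pool.Agent.H37.VSASM.Phi

open Finset Polynomial

namespace Pool.Agent.H37.VSASM

lemma det_two_rows {R : Type*} [CommRing R] {N : ℕ} (A : Matrix (Fin (N + 2)) (Fin (N + 2)) R)
    (h0 : ∀ k : Fin N, A 0 k.succ.succ = 0) (h1 : ∀ k : Fin N, A 1 k.succ.succ = 0) :
    A.det = (A 0 0 * A 1 1 - A 0 1 * A 1 0) *
      (A.submatrix (fun i : Fin N => i.succ.succ) (fun k : Fin N => k.succ.succ)).det := by
  rw [Matrix.det_succ_row_zero, Fin.sum_univ_succ, Fin.sum_univ_succ]
  rw [Finset.sum_eq_zero (fun k _ => by rw [h0 k]; ring), add_zero]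
  rw [Matrix.det_succ_row_zero (A.submatrix Fin.succ (Fin.succAbove 0)), Fin.sum_univ_succ,
    Finset.sum_eq_zero, add_zero]
  · rw [Matrix.det_succ_row_zero (A.submatrix Fin.succ (Fin.succAbove (Fin.succ 0))),
      Fin.sum_univ_succ, Finset.sum_eq_zero, add_zero]
    · have e1 : ((A.submatrix Fin.succ (Fin.succAbove 0)).submatrix Fin.succ (Fin.succAbove 0)) =
          (A.submatrix (fun i : Fin N => i.succ.succ) (fun k : Fin N => k.succ.succ)) := by
        ext i j; simp
      have e2 : ((A.submatrix Fin.succ (Fin.succAbove (Fin.succ 0))).submatrix Fin.succ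
          (Fin.succAbove 0)) =
          (A.submatrix (fun i : Fin N => i.succ.succ) (fun k : Fin N => k.succ.succ)) := by
        ext i j; simp
      rw [e1, e2]
      simp
      ring
    · intro k _
      have : (A.submatrix Fin.succ (Fin.succAbove (Fin.succ 0))) 0 k.succ = A 1 k.succ.succ := by
        simp
      rw [this, h1]; ring
  · intro k _
    have : (A.submatrix Fin.succ (Fin.succAbove 0)) 0 k.succ = A 1 k.succ.succ := by
      simp
    rw [this, h1]; ring

lemma phi_sub (R : Type*) [CommRing R] (M k : ℕ) (hk : k + 2 < 2 * M) (p : R) :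
    phi R M (k + 2) - C p * phi R M k =
      phi R (M - 1) k * (X ^ 3 + C p * X - C p) := by
  unfold phi
  have h1 : (k + 2) / 2 = k / 2 + 1 := by omega
  have h2 : (k + 2) % 2 = k % 2 := by omega
  rw [h1, h2]
  obtain ⟨a, ha⟩ : ∃ a, M - 1 - (k / 2 + 1) = a := ⟨_, rfl⟩
  have h3 : M - 1 - k / 2 = a + 1 := by omega
  have h4 : M - 1 - 1 - k / 2 = a := by omega
  rw [ha, h3, h4]
  have h5 : 3 * (k / 2 + 1) + k % 2 = 3 * (k / 2) + k % 2 + 3 := by ring
  rw [h5]
  ring

lemma det_eval_two {R : Type*} [CommRing R] (M N : ℕ) (hN : N + 2 ≤ 2 * M)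
    (s s' s'' : R) (h1 : s + s' + s'' = 0) (h2 : s * s' + s * s'' + s' * s'' = s * s' * s'')
    (S : Fin N → R) :
    Matrix.det (Matrix.of fun i k : Fin (N + 2) => (phi R M (k : ℕ)).eval
      ((Fin.cons s (Fin.cons s' S : Fin (N + 1) → R) : Fin (N + 2) → R) i)) =
    (((1 - s) * (1 - s')) ^ (M - 1) * (s' - s)) *
      ((∏ i, ((S i - s) * (S i - s') * (S i - s''))) *
        Matrix.det (Matrix.of fun i k : Fin N => (phi R (M - 1) (k : ℕ)).eval (S i))) := by
  set p := s * s' * s'' with hp
  set S' : Fin (N + 2) → R := Fin.cons s (Fin.cons s' S : Fin (N + 1) → R) with hS'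
  set W : Matrix (Fin (N + 2)) (Fin (N + 2)) R := Matrix.of fun i j =>
    if i = j then 1 else if (i : ℕ) + 2 = j then - p else 0 with hW
  have hWdet : W.det = 1 := by
    rw [Matrix.det_of_isUpperTriangular]
    · apply Finset.prod_eq_one
      intro i _
      simp [hW]
    · intro i j hij
      have hij' : j < i := hij
      simp only [hW, Matrix.of_apply]
      rw [if_neg hij'.ne', if_neg]
      have : (j : ℕ) < i := hij'
      omega
  set Φ : Matrix (Fin (N + 2)) (Fin (N + 2)) R := Matrix.of fun i k =>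
    (phi R M (k : ℕ)).eval (S' i) with hΦ
  have hΦW : Φ.det = (Φ * W).det := by rw [Matrix.det_mul, hWdet, mul_one]
  have hcub : ∀ x : R, x ^ 3 + p * x - p = (x - s) * (x - s') * (x - s'') := by
    intro x
    have h3 : p = s * s' * s'' := hp
    linear_combination (x ^ 2) * h1 - x * h2 - h3
  have e00 : (Φ * W) = Matrix.of fun i k : Fin (N + 2) =>
      if h : 2 ≤ (k : ℕ) then (phi R (M - 1) ((k : ℕ) - 2)).eval (S' i) *
        ((S' i - s) * (S' i - s') * (S' i - s'')) else (phi R M (k : ℕ)).eval (S' i) := by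
    ext i k
    rw [Matrix.mul_apply]
    simp only [Matrix.of_apply]
    split_ifs with h
    · have hk2 : (k : ℕ) - 2 < N + 2 := by omega
      have hk : (k : ℕ) < N + 2 := k.2
      rw [Finset.sum_eq_add (⟨(k : ℕ) - 2, hk2⟩ : Fin (N + 2)) k]
      · simp only [hΦ, hW, Matrix.of_apply, if_true]
        rw [if_neg, if_pos]
        · have h6 := phi_sub R M ((k : ℕ) - 2) (by omega) p
          have h7 : (k : ℕ) - 2 + 2 = k := by omega
          rw [h7] at h6
          have h8 := congrArg (Polynomial.eval (S' i)) h6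
          simp only [eval_sub, eval_mul, eval_C, eval_add, eval_pow, eval_X] at h8
          rw [hcub] at h8
          rw [← h8]; ring
        · show (k : ℕ) - 2 + 2 = k
          omega
        · intro h; have := congrArg Fin.val h; simp at this; omega
      · intro h; have := congrArg Fin.val h; simp at this; omega
      · intro c _ hc
        simp only [hW, Matrix.of_apply]
        rw [if_neg hc.2, if_neg, mul_zero]
        intro h9
        apply hc.1
        ext; simp; omega
      · intro h; exact absurd (Finset.mem_univ _) h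
      · intro h; exact absurd (Finset.mem_univ _) h
    · rw [Finset.sum_eq_single k]
      · simp [hΦ, hW]
      · intro b _ hb
        simp only [hW, Matrix.of_apply]
        rw [if_neg hb, if_neg, mul_zero]
        omega
      · intro h; exact absurd (Finset.mem_univ _) h
  rw [hΦW, e00, det_two_rows]
  · congr 1
    · have hs0 : S' 0 = s := rfl
      have hs1 : S' 1 = s' := rfl
      simp only [Matrix.of_apply, hs0, hs1, Fin.val_zero, Fin.val_one]
      simp only [Nat.not_ofNat_le_one, dif_neg, not_false_eq_true, nonpos_iff_eq_zero,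
        OfNat.ofNat_ne_zero]
      unfold phi
      simp
      rw [mul_pow]
      ring
    · rw [← Matrix.det_mul_column]
      congr 1
      ext i k
      simp only [Matrix.submatrix_apply, Matrix.of_apply]
      have : S' i.succ.succ = S i := by simp [hS']
      rw [this]
      simp
      ring
  · intro k
    have hs0 : S' 0 = s := rfl
    simp [hs0]
  · intro k
    have hs1 : S' 1 = s' := rfl
    simp [hs1]

lemma det_vandermonde_cons {R : Type*} [CommRing R] {N : ℕ} (a : R) (S : Fin N → R) :
    (Matrix.vandermonde (Fin.cons a S : Fin (N + 1) → R)).det =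
      (∏ i, (S i - a)) * (Matrix.vandermonde S).det := by
  rw [Matrix.det_vandermonde, Matrix.det_vandermonde, Fin.prod_univ_succ, Fin.prod_Ioi_zero]
  congr 1
  refine Finset.prod_congr rfl fun i _ => ?_
  rw [Fin.prod_Ioi_succ]
  simp

/-- the link lemma, generic version -/
lemma P3_generic {R : Type*} [CommRing R] [IsDomain R] (M N : ℕ) (hN : N + 2 ≤ 2 * M)
    (s s' s'' : R) (h1 : s + s' + s'' = 0) (h2 : s * s' + s * s'' + s' * s'' = s * s' * s'')
    (hne : s ≠ s') (S : Fin N → R) (hi : Function.Injective S) (hs : ∀ i, S i ≠ s)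
    (hs' : ∀ i, S i ≠ s') :
    HH M (N + 2) ((X - C s) * ((X - C s') * ∏ i, (X - C (S i)))) =
      ((1 - s) * (1 - s')) ^ (M - 1) * (∏ i, (S i - s'')) *
        HH (M - 1) N (∏ i, (X - C (S i))) := by
  have e1 := det_eval_two M N hN s s' s'' h1 h2 S
  rw [det_eval (M - 1) S, det_eval M, det_vandermonde_cons, det_vandermonde_cons] at e1
  rw [Fin.prod_univ_succ, Fin.prod_univ_succ, Fin.prod_univ_succ] at e1
  simp only [Fin.cons_zero, Fin.cons_succ] at e1
  have hV : (Matrix.vandermonde S).det ≠ 0 := Matrix.det_vandermonde_ne_zero_iff.mpr hi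
  have hp1 : (∏ i, (S i - s)) ≠ 0 := Finset.prod_ne_zero_iff.mpr fun i _ => sub_ne_zero.mpr (hs i)
  have hp2 : (∏ i, (S i - s')) ≠ 0 := Finset.prod_ne_zero_iff.mpr fun i _ => sub_ne_zero.mpr (hs' i)
  have hss : s' - s ≠ 0 := sub_ne_zero.mpr hne.symm
  have hc : (s' - s) * (∏ i, (S i - s)) * (∏ i, (S i - s')) * (Matrix.vandermonde S).det ≠ 0 :=
    mul_ne_zero (mul_ne_zero (mul_ne_zero hss hp1) hp2) hV
  apply mul_right_cancel₀ hc
  rw [Finset.prod_mul_distrib, Finset.prod_mul_distrib] at e1
  linear_combination e1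

/-- the link lemma -/
lemma P3 {R : Type*} [CommRing R] [IsDomain R] (M N : ℕ) (hN : N + 2 ≤ 2 * M)
    (s s' s'' : R) (h1 : s + s' + s'' = 0) (h2 : s * s' + s * s'' + s' * s'' = s * s' * s'')
    (hne : s ≠ s') (S : Fin N → R) :
    HH M (N + 2) ((X - C s) * ((X - C s') * ∏ i, (X - C (S i)))) =
      ((1 - s) * (1 - s')) ^ (M - 1) * (∏ i, (S i - s'')) *
        HH (M - 1) N (∏ i, (X - C (S i))) := by
  have e1 := P3_generic (R := MvPolynomial (Fin N) R) M N hN (MvPolynomial.C s) (MvPolynomial.C s')
    (MvPolynomial.C s'') (by rw [← map_add, ← map_add, h1, map_zero])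
    (by simp only [← map_mul, ← map_add]; rw [h2])
    (fun h => hne (MvPolynomial.C_injective _ _ h)) (fun i => MvPolynomial.X i)
    (MvPolynomial.X_injective)
    (fun i h => by
      have h3 := congrArg MvPolynomial.totalDegree h
      rw [MvPolynomial.totalDegree_X, MvPolynomial.totalDegree_C] at h3
      exact one_ne_zero h3)
    (fun i h => by
      have h3 := congrArg MvPolynomial.totalDegree h
      rw [MvPolynomial.totalDegree_X, MvPolynomial.totalDegree_C] at h3
      exact one_ne_zero h3)
  have e2 := congrArg (MvPolynomial.aeval S : MvPolynomial (Fin N) R →ₐ[R] R).toRingHom e1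
  rw [map_mul, map_mul, HH_map, HH_map] at e2
  · simpa [Polynomial.map_mul, Polynomial.map_sub, Polynomial.map_prod, map_prod] using e2
  · exact monic_prod_X_sub_C' _
  · exact (monic_X_sub_C _).mul ((monic_X_sub_C _).mul (monic_prod_X_sub_C' _))

end Pool.Agent.H37.VSASM
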