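import Pool.Agent.H37.VSASM.Tele

open Finset

namespace Pool.Agent.H37.VSASM

/-- A triangular array `a` of integers of order `n` (row `i`, for `i : Fin n`, has `i + 1` entries)
is a monotone triangle if every row is strictly increasing and
`a (i+1) j ≤ a i j ≤ a (i+1) (j+1)`. -/
def IsMonotoneTriangle {n : ℕ} (a : (i : Fin n) → Fin (i + 1) → ℤ) : Prop :=
  (∀ i, StrictMono (a i)) ∧
  ∀ (i : ℕ) (hi : i + 1 < n) (j : Fin (i + 1)),
    a ⟨i + 1, hi⟩ j.castSucc ≤ a ⟨i, Nat.lt_of_succ_lt hi⟩ j ∧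
      a ⟨i, Nat.lt_of_succ_lt hi⟩ j ≤ a ⟨i + 1, hi⟩ j.succ

/-- The last row (the one with `n` entries) of the array `a` of order `n` is `k`. -/
def HasBottomRow {n : ℕ} (a : (i : Fin n) → Fin (i + 1) → ℤ) (k : Fin n → ℤ) : Prop :=
  ∀ (i : ℕ) (hi : i + 1 = n) (j : Fin (i + 1)), a ⟨i, by omega⟩ j = k (Fin.cast hi j)

/-- The number of monotone triangles of order `n` with bottom row `k`. -/
noncomputable def numMT (n : ℕ) (k : Fin n → ℤ) : ℕ :=
  Nat.card {a : (i : Fin n) → Fin (i + 1) → ℤ // IsMonotoneTriangle a ∧ HasBottomRow a k}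

lemma numMT_zero (k : Fin 0 → ℤ) : numMT 0 k = 1 := by
  unfold numMT
  rw [Nat.card_eq_one_iff_exists]
  refine ⟨⟨fun i => i.elim0, ⟨fun i => i.elim0, fun i hi => absurd hi (by omega)⟩,
    fun i hi => absurd hi (by omega)⟩, ?_⟩
  rintro ⟨a, _⟩
  apply Subtype.ext
  funext i
  exact i.elim0

/-- the interlacing rows over `ℤ` -/
noncomputable def rowsZ (n : ℕ) (k : Fin (n + 1) → ℤ) : Finset (Fin n → ℤ) :=
  (Fintype.piFinset (fun i : Fin n => Finset.Icc (k i.castSucc) (k i.succ))).filter StrictMono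

lemma mem_rowsZ {n : ℕ} {k : Fin (n + 1) → ℤ} {l : Fin n → ℤ} :
    l ∈ rowsZ n k ↔ (∀ i, k i.castSucc ≤ l i ∧ l i ≤ k i.succ) ∧ StrictMono l := by
  simp [rowsZ, Fintype.mem_piFinset]

/-- the type of triangles with given bottom row -/
abbrev TT (n : ℕ) (k : Fin n → ℤ) : Type :=
  {a : (i : Fin n) → Fin (i + 1) → ℤ // IsMonotoneTriangle a ∧ HasBottomRow a k}

lemma hasBottomRow_succ {n : ℕ} (a : (i : Fin (n + 1)) → Fin (i + 1) → ℤ) (k : Fin (n + 1) → ℤ) :
    HasBottomRow a k ↔ a (Fin.last n) = k := by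
  constructor
  · intro h
    funext j
    exact h n rfl j
  · rintro rfl i hi j
    obtain rfl : i = n := by omega
    rfl

/-- Decomposition of a triangle into its last row and the rest. -/
noncomputable def decomp (n : ℕ) (k : Fin (n + 2) → ℤ) (hk : StrictMono k) :
    TT (n + 2) k ≃ Σ l : {l // l ∈ rowsZ (n + 1) k}, TT (n + 1) l.1 where
  toFun a := ⟨⟨a.1 ⟨n, by omega⟩, by
      rw [mem_rowsZ]
      have hb := (hasBottomRow_succ _ _).mp a.2.2
      refine ⟨fun j => ?_, a.2.1.1 _⟩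
      have := a.2.1.2 n (by omega) j
      have hb' : a.1 ⟨n + 1, by omega⟩ = k := hb
      rw [hb'] at this
      exact this⟩,
    ⟨fun i => a.1 i.castSucc, ⟨⟨fun i => a.2.1.1 _, fun i hi j => a.2.1.2 i (by omega) j⟩, by
      rw [hasBottomRow_succ]; rfl⟩⟩⟩
  invFun x := ⟨Fin.snoc (α := fun i : Fin (n + 2) => Fin (i + 1) → ℤ) x.2.1 k, by
    refine ⟨⟨fun i => ?_, fun i hi j => ?_⟩, ?_⟩
    · refine Fin.lastCases ?_ (fun i => ?_) i
      · rw [Fin.snoc_last]; exact hk
      · rw [Fin.snoc_castSucc]; exact x.2.2.1.1 i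
    · rcases Nat.lt_or_ge (i + 1) (n + 1) with h | h
      · have e1 : (⟨i + 1, hi⟩ : Fin (n + 2)) = Fin.castSucc ⟨i + 1, h⟩ := rfl
        have e2 : (⟨i, Nat.lt_of_succ_lt hi⟩ : Fin (n + 2)) =
          Fin.castSucc ⟨i, Nat.lt_of_succ_lt h⟩ := rfl
        have := x.2.2.1.2 i h j
        have f1 := Fin.snoc_castSucc (α := fun i : Fin (n + 2) => Fin (i + 1) → ℤ) k x.2.1
          ⟨i + 1, h⟩
        have f2 := Fin.snoc_castSucc (α := fun i : Fin (n + 2) => Fin (i + 1) → ℤ) k x.2.1
          ⟨i, Nat.lt_of_succ_lt h⟩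
        constructor
        · calc _ = x.2.1 ⟨i + 1, h⟩ j.castSucc := congrFun f1 _
            _ ≤ x.2.1 ⟨i, Nat.lt_of_succ_lt h⟩ j := this.1
            _ = _ := (congrFun f2 _).symm
        · calc _ = x.2.1 ⟨i, Nat.lt_of_succ_lt h⟩ j := congrFun f2 _
            _ ≤ x.2.1 ⟨i + 1, h⟩ j.succ := this.2
            _ = _ := (congrFun f1 _).symm
      · obtain rfl : i = n := by omega
        have hl := (mem_rowsZ.mp x.1.2).1 j
        have f1 := Fin.snoc_last (α := fun i : Fin (i + 2) => Fin (i + 1) → ℤ) k x.2.1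
        have f2 := Fin.snoc_castSucc (α := fun i : Fin (i + 2) => Fin (i + 1) → ℤ) k x.2.1
          ⟨i, by omega⟩
        have hb : x.2.1 ⟨i, by omega⟩ = x.1.1 := (hasBottomRow_succ _ _).mp x.2.2.2
        constructor
        · calc _ = k j.castSucc := congrFun f1 _
            _ ≤ x.1.1 j := hl.1
            _ = x.2.1 ⟨i, by omega⟩ j := (congrFun hb j).symm
            _ = _ := (congrFun f2 _).symm
        · calc _ = x.2.1 ⟨i, by omega⟩ j := congrFun f2 _
            _ = x.1.1 j := (congrFun hb j)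
            _ ≤ k j.succ := hl.2
            _ = _ := (congrFun f1 _).symm
    · rw [hasBottomRow_succ, Fin.snoc_last]⟩
  left_inv a := by
    apply Subtype.ext
    funext i
    refine Fin.lastCases ?_ (fun i => ?_) i
    · simp only [Fin.snoc_last]
      exact ((hasBottomRow_succ _ _).mp a.2.2).symm
    · simp only [Fin.snoc_castSucc]
  right_inv x := by
    rcases x with ⟨⟨l, hl⟩, ⟨a, ha, hb⟩⟩
    have hb' := (hasBottomRow_succ _ _).mp hb
    have h1 : (Fin.snoc (α := fun i : Fin (n + 2) => Fin (i + 1) → ℤ) a k) ⟨n, by omega⟩ = l := by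
      have := Fin.snoc_castSucc (α := fun i : Fin (n + 2) => Fin (i + 1) → ℤ) k a (Fin.last n)
      exact this.trans hb'
    subst hb'
    refine Sigma.ext (Subtype.ext h1) ?_
    apply (Subtype.heq_iff_coe_eq ?_).mpr
    · funext i
      simp only [Fin.snoc_castSucc]
    · intro b
      simp only
      rw [show (Fin.snoc (α := fun i : Fin (n + 2) => Fin (i + 1) → ℤ) a k) ⟨n, by omega⟩ =
        a (Fin.last n) from h1]

lemma rowsZ_one (k : Fin 1 → ℤ) : rowsZ 0 k = {Fin.elim0} := by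
  ext l
  rw [mem_rowsZ]
  simp only [IsEmpty.forall_iff, true_and, Finset.mem_singleton]
  constructor
  · intro _; funext i; exact i.elim0
  · intro _ i; exact i.elim0

lemma unique_TT_one (k : Fin 1 → ℤ) : Nat.card (TT 1 k) = 1 := by
  rw [Nat.card_eq_one_iff_exists]
  refine ⟨⟨fun i j => k (Fin.cast (by have := i.2; omega) j), ⟨⟨fun i => ?_, fun i hi => absurd hi
    (by omega)⟩, ?_⟩⟩, ?_⟩
  · intro x y hxy
    exfalso
    have := i.2; have := x.2; have := y.2
    have h : (x : ℕ) < y := hxy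
    omega
  · intro i hi j
    rfl
  · rintro ⟨a, _, hb⟩
    apply Subtype.ext
    funext i j
    have hi : i = Fin.last 0 := Subsingleton.elim _ _
    subst hi
    have := congrFun ((hasBottomRow_succ _ _).mp hb) j
    exact this

instance finite_TT : ∀ (n : ℕ) (k : Fin n → ℤ), Finite (TT n k)
  | 0, k => by
    apply Nat.finite_of_card_ne_zero
    have := numMT_zero k
    unfold numMT at this
    rw [this]
    exact one_ne_zero
  | 1, k => by
    apply Nat.finite_of_card_ne_zero
    rw [unique_TT_one]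
    exact one_ne_zero
  | n + 2, k => by
    by_cases hk : StrictMono k
    · have := fun l => finite_TT (n + 1) l
      exact Finite.of_equiv _ (decomp n k hk).symm
    · have : IsEmpty (TT (n + 2) k) := by
        refine ⟨fun a => hk ?_⟩
        have := a.2.1.1 (Fin.last _)
        rwa [(hasBottomRow_succ _ _).mp a.2.2] at this
      infer_instance

/-- The recursion for the number of monotone triangles. -/
lemma numMT_succ : ∀ (n : ℕ) (k : Fin (n + 1) → ℤ), StrictMono k →
    numMT (n + 1) k = ∑ l ∈ rowsZ n k, numMT n l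
  | 0, k, _ => by
    rw [rowsZ_one, Finset.sum_singleton, numMT_zero]
    exact unique_TT_one k
  | n + 1, k, hk => by
    unfold numMT
    rw [Nat.card_congr (decomp n k hk), Nat.card_sigma]
    rw [← Finset.sum_coe_sort (rowsZ (n + 1) k)]

/-- Translation invariance. -/
lemma numMT_add_const (n : ℕ) (k : Fin n → ℤ) (c : ℤ) :
    numMT n (fun i => k i + c) = numMT n k := by
  unfold numMT
  apply Nat.card_congr
  refine Equiv.subtypeEquiv (Equiv.piCongrRight fun i => Equiv.piCongrRight fun j =>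
    Equiv.addRight (-c)) ?_
  intro a
  constructor
  · rintro ⟨⟨h1, h2⟩, h3⟩
    refine ⟨⟨fun i x y hxy => ?_, fun i hi j => ?_⟩, fun i hi j => ?_⟩
    · have := h1 i hxy
      simp only [Equiv.piCongrRight_apply, Pi.map_apply, Equiv.coe_addRight]
      omega
    · have := h2 i hi j
      simp only [Equiv.piCongrRight_apply, Pi.map_apply, Equiv.coe_addRight]
      omega
    · have := h3 i hi j
      simp only [Equiv.piCongrRight_apply, Pi.map_apply, Equiv.coe_addRight] at this ⊢
      omega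
  · rintro ⟨⟨h1, h2⟩, h3⟩
    have h1' : ∀ i : Fin n, StrictMono (fun j => a i j + -c) := h1
    have h2' : ∀ (i : ℕ) (hi : i + 1 < n) (j : Fin (i + 1)),
      a ⟨i + 1, hi⟩ j.castSucc + -c ≤ a ⟨i, Nat.lt_of_succ_lt hi⟩ j + -c ∧
      a ⟨i, Nat.lt_of_succ_lt hi⟩ j + -c ≤ a ⟨i + 1, hi⟩ j.succ + -c := h2
    have h3' : ∀ (i : ℕ) (hi : i + 1 = n) (j : Fin (i + 1)),
      a ⟨i, by omega⟩ j + -c = k (Fin.cast hi j) := h3
    refine ⟨⟨fun i x y hxy => ?_, fun i hi j => ?_⟩, fun i hi j => ?_⟩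
    · have := h1' i hxy
      simp only at this
      omega
    · have := h2' i hi j
      omega
    · have := h3' i hi j
      show a ⟨i, _⟩ j = k (Fin.cast hi j) + c
      omega

end Pool.Agent.H37.VSASM
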