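import Mathlib

open Finset Polynomial

namespace Pool.Agent.H37.VSASM

/-- `phi M k = (1-X)^(M-1-⌊k/2⌋) X^(3⌊k/2⌋ + (k mod 2))` -/
noncomputable def phi (R : Type*) [CommRing R] (M k : ℕ) : R[X] :=
  (1 - X) ^ (M - 1 - k / 2) * X ^ (3 * (k / 2) + k % 2)

/-- `HH M N e`: determinant of the coefficients of `phi M k` modulo `e`. -/
noncomputable def HH {R : Type*} [CommRing R] (M N : ℕ) (e : R[X]) : R :=
  Matrix.det (Matrix.of fun k j : Fin N => ((phi R M (k : ℕ)) %ₘ e).coeff (j : ℕ))

lemma phi_map {R S : Type*} [CommRing R] [CommRing S] (f : R →+* S) (M k : ℕ) :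
    (phi R M k).map f = phi S M k := by
  simp [phi, Polynomial.map_sub]

lemma HH_map {R S : Type*} [CommRing R] [CommRing S] (f : R →+* S) (M N : ℕ) (e : R[X])
    (he : e.Monic) : f (HH M N e) = HH M N (e.map f) := by
  unfold HH
  rw [RingHom.map_det]
  congr 1
  ext k j
  simp only [RingHom.mapMatrix_apply, Matrix.map_apply, Matrix.of_apply]
  rw [← Polynomial.coeff_map, Polynomial.map_modByMonic _ he, phi_map]

lemma monic_prod_X_sub_C' {R : Type*} [CommRing R] {N : ℕ} (S : Fin N → R) :
    (∏ i, (X - C (S i))).Monic := monic_prod_of_monic _ _ fun i _ => monic_X_sub_C _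

lemma natDegree_prod_X_sub_C' {R : Type*} [CommRing R] [Nontrivial R] {N : ℕ} (S : Fin N → R) :
    (∏ i, (X - C (S i))).natDegree = N := by
  rw [natDegree_prod_of_monic _ _ fun i _ => monic_X_sub_C _]
  simp

/-- (H1) -/
lemma det_eval {R : Type*} [CommRing R] (M : ℕ) {N : ℕ} (S : Fin N → R) :
    Matrix.det (Matrix.of fun i k : Fin N => (phi R M (k : ℕ)).eval (S i)) =
      HH M N (∏ i, (X - C (S i))) * (Matrix.vandermonde S).det := by
  rcases subsingleton_or_nontrivial R with hR | hR
  · exact Subsingleton.elim _ _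
  unfold HH
  rw [← Matrix.det_transpose (Matrix.of fun k j : Fin N =>
    ((phi R M (k : ℕ)) %ₘ (∏ i, (X - C (S i)))).coeff (j : ℕ)), mul_comm, ← Matrix.det_mul]
  congr 1
  ext i k
  rw [Matrix.mul_apply]
  simp only [Matrix.of_apply, Matrix.vandermonde_apply, Matrix.transpose_apply]
  set e := ∏ i, (X - C (S i)) with he
  have hmon : e.Monic := monic_prod_X_sub_C' S
  have hroot : e.eval (S i) = 0 := by
    rw [he, eval_prod]
    exact Finset.prod_eq_zero (Finset.mem_univ i) (by simp)
  have h1 : (phi R M (k : ℕ)).eval (S i) = ((phi R M (k : ℕ)) %ₘ e).eval (S i) := by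
    conv_lhs => rw [← modByMonic_add_div (phi R M (k : ℕ)) e]
    rw [eval_add, eval_mul, hroot, zero_mul, add_zero]
  rw [h1]
  have hN : 0 < N := i.pos
  have hdeg : ((phi R M (k : ℕ)) %ₘ e).natDegree < N := by
    have := natDegree_modByMonic_lt (phi R M (k : ℕ)) hmon (by
      intro h
      have h2 := natDegree_prod_X_sub_C' S
      rw [← he, h, natDegree_one] at h2
      omega)
    rwa [he, natDegree_prod_X_sub_C' S] at this
  rw [eval_eq_sum_range' hdeg, Finset.sum_range]
  exact Finset.sum_congr rfl fun j _ => mul_comm _ _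

/-- division by a product of a linear factor and `e₁` -/
lemma modByMonic_X_sub_C_mul {R : Type*} [CommRing R] [Nontrivial R] (f e₁ : R[X])
    (he : e₁.Monic) (y : R) :
    f %ₘ ((X - C y) * e₁) = f %ₘ e₁ + C ((f /ₘ e₁).eval y) * e₁ := by
  have hm : ((X - C y) * e₁).Monic := (monic_X_sub_C y).mul he
  have h1 := modByMonic_add_div f e₁
  set q := f /ₘ e₁ with hq
  have h2 := modByMonic_add_div q (X - C y)
  rw [modByMonic_X_sub_C_eq_C_eval] at h2
  refine (div_modByMonic_unique (q /ₘ (X - C y)) (f %ₘ e₁ + C (q.eval y) * e₁) hm ⟨?_, ?_⟩).2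
  · calc f %ₘ e₁ + C (eval y q) * e₁ + (X - C y) * e₁ * (q /ₘ (X - C y))
        = f %ₘ e₁ + e₁ * (C (eval y q) + (X - C y) * (q /ₘ (X - C y))) := by ring
      _ = f := by rw [h2, h1]
  · have hd : ((X - C y) * e₁).degree = 1 + e₁.degree := by
      rw [Monic.degree_mul he, degree_X_sub_C]
    rw [hd]
    refine lt_of_le_of_lt (degree_add_le _ _) (max_lt ?_ ?_)
    · refine lt_trans (degree_modByMonic_lt f he) ?_
      rw [degree_eq_natDegree he.ne_zero]
      exact_mod_cast Nat.lt_one_add_iff.mpr le_rfl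
    · have h3 : (C (q.eval y) * e₁).degree ≤ e₁.degree := by
        rw [← smul_eq_C_mul]; exact degree_smul_le _ _
      refine lt_of_le_of_lt h3 ?_
      rw [degree_eq_natDegree he.ne_zero]
      exact_mod_cast Nat.lt_one_add_iff.mpr le_rfl

/-- the minors -/
noncomputable def minor {R : Type*} [CommRing R] (M N : ℕ) (e₁ : R[X]) (k : Fin (N + 1)) : R :=
  Matrix.det (Matrix.of fun k' j : Fin N => ((phi R M (k.succAbove k' : ℕ)) %ₘ e₁).coeff (j : ℕ))

/-- the polynomial `y ↦ HH M (N+1) ((X - y) e₁)` -/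
noncomputable def QQ {R : Type*} [CommRing R] (M N : ℕ) (e₁ : R[X]) : R[X] :=
  ∑ k : Fin (N + 1), C ((-1) ^ ((k : ℕ) + N) * minor M N e₁ k) * (phi R M (k : ℕ) /ₘ e₁)

lemma HH_eq_eval_QQ {R : Type*} [CommRing R] [Nontrivial R] (M N : ℕ) (e₁ : R[X]) (he : e₁.Monic)
    (hN : e₁.natDegree = N) (y : R) :
    HH M (N + 1) ((X - C y) * e₁) = (QQ M N e₁).eval y := by
  set B : Matrix (Fin (N + 1)) (Fin (N + 1)) R := Matrix.of fun k j =>
    (Fin.lastCases ((phi R M (k : ℕ) /ₘ e₁).eval y)
      (fun j' : Fin N => ((phi R M (k : ℕ)) %ₘ e₁).coeff (j' : ℕ)) j : R) with hB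
  set U : Matrix (Fin (N + 1)) (Fin (N + 1)) R := Matrix.of fun i j =>
    (if i = Fin.last N then e₁.coeff (j : ℕ) else if i = j then 1 else 0) with hU
  have hBU : (Matrix.of fun k j : Fin (N + 1) =>
      ((phi R M (k : ℕ)) %ₘ ((X - C y) * e₁)).coeff (j : ℕ)) = B * U := by
    ext k j
    rw [Matrix.mul_apply, Fin.sum_univ_castSucc]
    simp only [Matrix.of_apply, hB, hU, Fin.lastCases_castSucc, Fin.lastCases_last, if_true]
    rw [modByMonic_X_sub_C_mul _ _ he, coeff_add, coeff_C_mul]
    congr 1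
    have h0 : ∀ x : Fin N, (if x.castSucc = Fin.last N then e₁.coeff (j : ℕ) else
        if x.castSucc = j then 1 else 0) = (if x.castSucc = j then (1 : R) else 0) := by
      intro x
      rw [if_neg (Fin.castSucc_lt_last x).ne]
    simp only [h0]
    refine Fin.lastCases ?_ (fun j => ?_) j
    · rw [Finset.sum_eq_zero]
      · rw [Fin.val_last]
        apply coeff_eq_zero_of_degree_lt
        have := degree_modByMonic_lt (phi R M (k : ℕ)) he
        rwa [degree_eq_natDegree he.ne_zero, hN] at this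
      · intro x _
        rw [if_neg (Fin.castSucc_lt_last x).ne, mul_zero]
    · rw [Finset.sum_eq_single j]
      · simp
      · intro b _ hb
        rw [if_neg, mul_zero]
        intro h
        exact hb (Fin.castSucc_injective _ h)
      · intro h
        exact absurd (Finset.mem_univ j) h
  have hUdet : U.det = 1 := by
    rw [Matrix.det_of_isLowerTriangular]
    · rw [Fin.prod_univ_castSucc]
      simp only [hU, Matrix.of_apply, if_true, Fin.val_last]
      have h1 : e₁.coeff N = 1 := by
        rw [← hN]; exact he.coeff_natDegree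
      rw [h1, mul_one]
      apply Finset.prod_eq_one
      intro i _
      rw [if_neg (Fin.castSucc_lt_last i).ne]
    · intro i j hij
      have hij' : i < j := hij
      simp only [hU, Matrix.of_apply]
      rw [if_neg (lt_of_lt_of_le hij' (Fin.le_last j)).ne, if_neg hij'.ne]
  unfold HH
  rw [hBU, Matrix.det_mul, hUdet, mul_one, Matrix.det_succ_column B (Fin.last N)]
  unfold QQ
  rw [eval_finsetSum]
  refine Finset.sum_congr rfl fun k _ => ?_
  rw [eval_mul, eval_C]
  simp only [hB, Matrix.of_apply, Fin.lastCases_last, Fin.val_last]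
  unfold minor
  have : (B.submatrix k.succAbove (Fin.last N).succAbove) =
      (Matrix.of fun k' j : Fin N => ((phi R M (k.succAbove k' : ℕ)) %ₘ e₁).coeff (j : ℕ)) := by
    ext k' j
    simp [hB, Matrix.submatrix_apply, Fin.succAbove_last]
  rw [← hB, this]
  ring

lemma natDegree_phi_le {R : Type*} [CommRing R] (m k : ℕ) (hk : k / 2 ≤ m) :
    (phi R (m + 1) k).natDegree ≤ m + k := by
  unfold phi
  refine (natDegree_mul_le).trans ?_
  have h1 : ((1 - X : R[X]) ^ (m + 1 - 1 - k / 2)).natDegree ≤ m - k / 2 := by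
    refine (natDegree_pow_le).trans ?_
    have h2 : (1 - X : R[X]).natDegree ≤ 1 := by
      refine (natDegree_sub_le _ _).trans ?_
      simp [natDegree_X_le]
    calc (m + 1 - 1 - k / 2) * (1 - X : R[X]).natDegree ≤ (m + 1 - 1 - k / 2) * 1 :=
          Nat.mul_le_mul_left _ h2
      _ = m - k / 2 := by omega
  have h3 : (X ^ (3 * (k / 2) + k % 2) : R[X]).natDegree ≤ 3 * (k / 2) + k % 2 :=
    natDegree_X_pow_le _
  omega

lemma natDegree_QQ_le {R : Type*} [CommRing R] [Nontrivial R] (m N : ℕ) (hN : N / 2 ≤ m)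
    (e₁ : R[X]) (he : e₁.Monic) (hd : e₁.natDegree = N) : (QQ (m + 1) N e₁).natDegree ≤ m := by
  unfold QQ
  apply natDegree_sum_le_of_forall_le
  intro k _
  refine (natDegree_C_mul_le _ _).trans ?_
  rw [natDegree_divByMonic _ he, hd]
  have hk : (k : ℕ) ≤ N := Nat.lt_succ_iff.mp k.2
  have := natDegree_phi_le (R := R) m (k : ℕ) (by omega)
  omega

lemma coeff_QQ {R : Type*} [CommRing R] [Nontrivial R] (m N : ℕ) (hN : N / 2 = m)
    (e₁ : R[X]) (he : e₁.Monic) (hd : e₁.natDegree = N) :
    (QQ (m + 1) N e₁).coeff m = HH (m + 1) N e₁ := by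
  unfold QQ
  rw [finsetSum_coeff, Fin.sum_univ_castSucc, Finset.sum_eq_zero, zero_add]
  · rw [coeff_C_mul, Fin.val_last]
    have h1 : (phi R (m + 1) N /ₘ e₁).coeff m = 1 := by
      have h2 : phi R (m + 1) N = X ^ (m + N) := by
        unfold phi
        have h3 : m + 1 - 1 - N / 2 = 0 := by omega
        have h4 : 3 * (N / 2) + N % 2 = m + N := by omega
        rw [h3, h4, pow_zero, one_mul]
      rw [h2]
      have h5 : (X ^ (m + N) : R[X]).Monic := monic_X_pow _
      have h6 : (X ^ (m + N) /ₘ e₁ : R[X]).natDegree = m := by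
        rw [natDegree_divByMonic _ he, natDegree_X_pow, hd]; omega
      have h7 : (X ^ (m + N) /ₘ e₁ : R[X]).leadingCoeff = 1 := by
        rw [leadingCoeff_divByMonic_of_monic he]
        · exact h5
        · rw [degree_eq_natDegree he.ne_zero, degree_X_pow, hd]
          exact_mod_cast Nat.le_add_left N m
      rw [← h7, leadingCoeff, h6]
    rw [h1, mul_one]
    have h2 : minor (m + 1) N e₁ (Fin.last N) = HH (m + 1) N e₁ := by
      unfold minor HH
      congr 1
      ext k j
      simp [Fin.succAbove_last]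
    rw [h2, ← two_mul, pow_mul]
    simp
  · intro k _
    rw [coeff_C_mul]
    have hk : (k : ℕ) < N := k.2
    have h1 := natDegree_phi_le (R := R) m (k : ℕ) (by omega)
    rcases Nat.eq_zero_or_pos m with hm | hm
    · have h2 : phi R (m + 1) (k : ℕ) /ₘ e₁ = 0 := by
        rw [divByMonic_eq_zero_iff he, degree_eq_natDegree he.ne_zero, hd]
        refine lt_of_le_of_lt degree_le_natDegree ?_
        exact_mod_cast (by omega : (phi R (m + 1) (k : ℕ)).natDegree < N)
      rw [Fin.val_castSucc, h2, coeff_zero, mul_zero]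
    rw [coeff_eq_zero_of_natDegree_lt, mul_zero]
    rw [natDegree_divByMonic _ he, hd, Fin.val_castSucc]
    omega

end Pool.Agent.H37.VSASM
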